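import Pool.Agent.H33R3.Bom.Stmts

set_option autoImplicit false

/-! # Second part of project H33-BOM: nearly sharp growth

`|Re (n - a_n)| ≤ 10^5 n^3 (1 + log n) Re (2 - a_2)`. Definitions and tasks. -/

namespace Pool.Agent.H33R3.Bom

open Complex Metric Set Filter Topology

/-- `h + conj h conj`, twice the part of `h` with real coefficients -/
noncomputable def UU (Y : ℂ → ℂ) (z : ℂ) : ℂ := hh Y z + (starRingEnd ℂ) (hh Y ((starRingEnd ℂ) z))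

/-- `-log (1 - r ^ 2)` -/
noncomputable def La (r : ℝ) : ℝ := -Real.log (1 - r ^ 2)

/-- The conclusion of TASK B2 -/
def HBound : Prop :=
  ∀ Y : ℂ → ℂ, IsG Y → 0 ≤ ep Y ∧ ∀ z ∈ ball (0 : ℂ) 1, ‖hh Y z‖ ^ 2 ≤ ep Y * La ‖z‖

/-- The conclusion of TASK F2 -/
def FBound : Prop :=
  ∀ Y : ℂ → ℂ, IsG Y → ∀ ζ ∈ ball (0 : ℂ) 1,
    ‖UU Y ζ‖ * |ζ.re * ζ.im| * (1 - ‖ζ‖ ^ 2) ≤
      4 * ep Y * (1 + La ‖ζ‖) * (|ζ.im| + (1 - ‖ζ‖ ^ 2))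

/-- TASK F2 -/
def TaskF2 : Prop := HBound → Star → FBound

/-- The conclusion of TASK G2 -/
def UBound2 : Prop :=
  ∀ Y : ℂ → ℂ, IsG Y → ∀ z ∈ ball (0 : ℂ) 1, 1 / 2 ≤ ‖z‖ →
    ‖UU Y z‖ * ‖z ^ 2 + (((1 + ‖z‖) / 2 : ℝ) : ℂ) ^ 2‖ * (1 - ‖z‖) ≤
      172 * ep Y * (2 - Real.log (1 - ‖z‖))

/-- TASK G2: maximum principle -/
def TaskG2 : Prop := (∀ Y : ℂ → ℂ, IsG Y → 0 ≤ ep Y) → FBound → UBound2

/-- TASK L: Taylor coefficients from integral means -/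
def TaskL : Prop :=
  ∀ (Φ : ℂ → ℂ) (r B C : ℝ), DifferentiableOn ℂ Φ (ball 0 1) → 0 < r → r < 1 →
    (∀ z : ℂ, ‖z‖ = r → ‖Φ z‖ ≤ B / ‖1 - z ^ 2‖ ^ 2 + C) →
    ∀ m : ℕ, ‖coeff m Φ‖ * r ^ m ≤ B / (1 - r ^ 4) + C

/-- The conclusion of TASK M1 -/
def LinBound : Prop :=
  ∀ Y : ℂ → ℂ, IsG Y → ∀ n : ℕ, 2 ≤ n →
    ‖coeff (2 * n) (fun z => z ^ 3 * UU Y z * ((1 - z ^ 2)⁻¹) ^ 3)‖ ≤
      17000 * (n : ℝ) ^ 3 * (2 + Real.log (2 * n)) * ep Y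

/-- TASK M1: the linear term -/
def TaskM1 : Prop := TaskL → UBound2 → LinBound

/-- The conclusion of TASK M2 -/
def QuadBound : Prop :=
  ∀ Y : ℂ → ℂ, IsG Y → ∀ n : ℕ, 2 ≤ n →
    ‖coeff (2 * n) (fun z => z ^ 4 * (hh Y z) ^ 2 *
      (2 * ((1 - z ^ 2)⁻¹) ^ 3 * (Y z)⁻¹ + ((1 - z ^ 2)⁻¹) ^ 2 * ((Y z)⁻¹) ^ 2))‖ ≤
      200 * (n : ℝ) ^ 3 * Real.log (2 * n) * ep Y

/-- TASK M2: the quadratic term -/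
def TaskM2 : Prop := TaskL → HBound → YBound → QuadBound

/-- The conclusion of TASK M3 -/
def DiffBound : Prop :=
  ∀ Y : ℂ → ℂ, IsG Y → ∀ n : ℕ, 2 ≤ n →
    ‖coeff (2 * n) (fun z => z ^ 3 * hh Y z *
      ((1 - z ^ 2)⁻¹ * ((Y z)⁻¹) ^ 2 + ((1 - z ^ 2)⁻¹) ^ 2 * (Y z)⁻¹))‖ ^ 2 ≤
      4000 * (n : ℝ) ^ 5 * Real.log (2 * n) * ep Y

/-- TASK M3: the full difference -/
def TaskM3 : Prop := TaskL → HBound → YBound → DiffBound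

/-- The conclusion of TASK M4 -/
def CoeffBound2 : Prop :=
  ∀ (f Y : ℂ → ℂ), InS f → IsG Y → (∀ z ∈ ball (0 : ℂ) 1, f (z ^ 2) * Y z ^ 2 = z ^ 2) →
    ∀ n : ℕ, 2 ≤ n →
      |((n : ℂ) - coeff n f).re| ≤ 10 ^ 5 * (n : ℝ) ^ 3 * (1 + Real.log n) * ep Y ∧
      (coeff n f).im ^ 2 ≤ 10 ^ 4 * (n : ℝ) ^ 5 * (1 + Real.log n) * ep Y

/-- TASK M4: assembly of the three terms -/
def TaskM4 : Prop := (∀ Y : ℂ → ℂ, IsG Y → 0 ≤ ep Y) → LinBound → QuadBound → DiffBound → CoeffBound2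

/-- The second theorem -/
def Goal2 : Prop :=
  ∀ f : ℂ → ℂ, InS f → ∀ n : ℕ, 2 ≤ n →
    |((n : ℂ) - coeff n f).re| ≤
      10 ^ 5 * (n : ℝ) ^ 3 * (1 + Real.log n) * ((2 : ℂ) - coeff 2 f).re ∧
    |(n : ℝ) - ‖coeff n f‖| ≤
      10 ^ 6 * (n : ℝ) ^ 4 * (1 + Real.log n) * (2 - ‖coeff 2 f‖)

/-- TASK N2: rotation and conclusion -/
def TaskN2 : Prop := TaskA → (∀ Y : ℂ → ℂ, IsG Y → 0 ≤ ep Y) → CoeffBound2 → Goal2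

theorem assemble2 (hA : TaskA) (hC1 : TaskC1) (hC2 : TaskC2) (hC3 : TaskC3)
    (hC4 : TaskC4) (hC5a : TaskC5a) (hC5 : TaskC5) (hD : TaskD) (hE1 : TaskE1) (hE2 : TaskE2)
    (hH1 : TaskH1) (hH2 : TaskH2) (hB2 : HBound) (hF2 : TaskF2) (hG2 : TaskG2) (hL : TaskL)
    (hM1 : TaskM1) (hM2 : TaskM2) (hM3 : TaskM3) (hM4 : TaskM4) (hN2 : TaskN2) : Goal2 := by
  have hC : TaskC := hC5 hC5a hC2 (hC3 hC1) hC4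
  have hS : Star := hE2 hD (hE1 hC)
  have hep : ∀ Y : ℂ → ℂ, IsG Y → 0 ≤ ep Y := fun Y hY => (hB2 Y hY).1
  have hU : UBound2 := hG2 hep (hF2 hB2 hS)
  have hY : YBound := hH2 (hH1 hC hD)
  exact hN2 hA hep (hM4 hep (hM1 hL hU) (hM2 hL hB2 hY) (hM3 hL hB2 hY))

end Pool.Agent.H33R3.Bom
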