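import Pool.Agent.H33R3.Bom.Stmts

set_option autoImplicit false

namespace Pool.Agent.H33R3.Bom.I1

open Complex Metric Set Filter Topology

open scoped ComplexConjugate

lemma hasSum_iff_at {g : ℂ → ℂ} {c : ℕ → ℂ}
    (h : ∀ᶠ z in 𝓝 (0 : ℂ), HasSum (fun k : ℕ => c k * z ^ k) (g z)) (k : ℕ) :
    coeff k g = c k := by
  have h1 : HasFPowerSeriesAt g (FormalMultilinearSeries.ofScalars ℂ c) 0 := by
    rw [hasFPowerSeriesAt_iff]
    filter_upwards [h] with z hz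
    simp only [FormalMultilinearSeries.coeff_ofScalars, zero_add, smul_eq_mul]
    have he : (fun n : ℕ => z ^ n * c n) = fun k : ℕ => c k * z ^ k := by
      funext k; ring
    rw [he]; exact hz
  have h2 : AnalyticAt ℂ g 0 := ⟨_, h1⟩
  have h3 := h2.hasFPowerSeriesAt.eq_formalMultilinearSeries h1
  have h4 := congrArg (fun p => FormalMultilinearSeries.coeff p k) h3
  simpa [FormalMultilinearSeries.coeff_ofScalars, coeff] using h4

lemma hasSum_of_an {g : ℂ → ℂ} (hg : AnalyticAt ℂ g 0) :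
    ∀ᶠ z in 𝓝 (0 : ℂ), HasSum (fun k : ℕ => coeff k g * z ^ k) (g z) := by
  have h1 := hg.hasFPowerSeriesAt
  rw [hasFPowerSeriesAt_iff] at h1
  filter_upwards [h1] with z hz
  simp only [FormalMultilinearSeries.coeff_ofScalars, zero_add, smul_eq_mul] at hz
  have he : (fun k : ℕ => coeff k g * z ^ k) =
      fun n : ℕ => z ^ n * (iteratedDeriv n g 0 / (n.factorial : ℂ)) := by
    funext k; simp only [coeff]; ring
  rw [he]; exact hz

/-- coefficients of `z ↦ g (z ^ 2)` -/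
lemma coeff_sq {g : ℂ → ℂ} (hg : AnalyticAt ℂ g 0) (n : ℕ) :
    coeff (2 * n) (fun z => g (z ^ 2)) = coeff n g := by
  have h1 := hasSum_of_an hg
  have h2 : Tendsto (fun z : ℂ => z ^ 2) (𝓝 0) (𝓝 0) := by
    have : Continuous (fun z : ℂ => z ^ 2) := by fun_prop
    simpa using this.tendsto 0
  have h3 := h2.eventually h1
  have := hasSum_iff_at (g := fun z => g (z ^ 2))
    (c := fun j => if Even j then coeff (j / 2) g else 0) (by
      filter_upwards [h3] with z hz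
      have hinj : Function.Injective (fun k : ℕ => 2 * k) := fun a b h => by
        simpa using h
      rw [← hinj.hasSum_iff]
      · convert hz using 2 with k
        simp [pow_mul]
      · intro j hj
        have : ¬ Even j := by
          rintro ⟨k, hk⟩
          exact hj ⟨k, by simp only; omega⟩
        simp [this]) (2 * n)
  simpa using this

/-- coefficients of `z ↦ z ^ 2 * g z` -/
lemma coeff_shift {g : ℂ → ℂ} (hg : AnalyticAt ℂ g 0) (n : ℕ) :
    coeff (n + 2) (fun z => z ^ 2 * g z) = coeff n g := by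
  have h1 := hasSum_of_an hg
  have := hasSum_iff_at (g := fun z => z ^ 2 * g z)
    (c := fun j => if 2 ≤ j then coeff (j - 2) g else 0) (by
      filter_upwards [h1] with z hz
      have hinj : Function.Injective (fun k : ℕ => k + 2) := fun a b h => by
        simpa using h
      rw [← hinj.hasSum_iff]
      · have h2 := hz.mul_left (z ^ 2)
        have he : ((fun j : ℕ => (if 2 ≤ j then coeff (j - 2) g else 0) * z ^ j) ∘
            fun k : ℕ => k + 2) = fun k : ℕ => z ^ 2 * (coeff k g * z ^ k) := by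
          funext k
          simp only [Function.comp]
          rw [if_pos (by omega), Nat.add_sub_cancel]
          ring
        rw [he]; exact h2
      · intro j hj
        have : ¬ 2 ≤ j := by
          intro hk
          exact hj ⟨j - 2, by simp only; omega⟩
        simp [this]) (n + 2)
  simpa using this

/-- coefficients of the Koebe kernel -/
lemma coeff_koebe (n : ℕ) :
    coeff (2 * n) (fun z : ℂ => 1 / (1 - z ^ 2) ^ 2) = n + 1 := by
  have hone : ∀ᶠ w in 𝓝 (0 : ℂ),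
      HasSum (fun k : ℕ => ((k : ℂ) + 1) * w ^ k) (1 / (1 - w) ^ 2) := by
    filter_upwards [Metric.ball_mem_nhds (0 : ℂ) one_pos] with w hw
    have hw1 : ‖w‖ < 1 := by simpa using hw
    have h := hasSum_choose_mul_geometric_of_norm_lt_one 1 hw1
    have he : (fun k : ℕ => ((k : ℂ) + 1) * w ^ k) =
        fun k : ℕ => (((k + 1).choose 1 : ℕ) : ℂ) * w ^ k := by
      funext k; simp
    rw [he]; exact h
  have hg : AnalyticAt ℂ (fun w : ℂ => 1 / (1 - w) ^ 2) 0 := by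
    have h1 : HasFPowerSeriesAt (fun w : ℂ => 1 / (1 - w) ^ 2)
        (FormalMultilinearSeries.ofScalars ℂ (fun k : ℕ => (k : ℂ) + 1)) 0 := by
      rw [hasFPowerSeriesAt_iff]
      filter_upwards [hone] with z hz
      simp only [FormalMultilinearSeries.coeff_ofScalars, zero_add, smul_eq_mul]
      have he : (fun n : ℕ => z ^ n * ((n : ℂ) + 1)) = fun k : ℕ => ((k : ℂ) + 1) * z ^ k := by
        funext k; ring
      rw [he]; exact hz
    exact ⟨_, h1⟩
  have h2 := coeff_sq hg n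
  rw [h2]
  exact hasSum_iff_at hone n

/-- coefficients of the conjugate function -/
lemma coeff_conj {g : ℂ → ℂ} (hg : AnalyticAt ℂ g 0) (n : ℕ) :
    coeff n (fun z => conj (g (conj z))) = conj (coeff n g) := by
  have h1 := hasSum_of_an hg
  have h2 : Tendsto (fun z : ℂ => conj z) (𝓝 0) (𝓝 0) := by
    have : Continuous (fun z : ℂ => conj z) := continuous_conj
    simpa using this.tendsto 0
  have h3 := h2.eventually h1
  apply hasSum_iff_at (c := fun k => conj (coeff k g))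
  filter_upwards [h3] with z hz
  have h4 := Complex.hasSum_conj'.2 hz
  have he : (fun k : ℕ => conj (coeff k g * (conj z) ^ k)) =
      fun k : ℕ => conj (coeff k g) * z ^ k := by
    funext k; simp
  rw [he] at h4
  exact h4

/-- Cauchy estimate -/
lemma cauchy {g : ℂ → ℂ} (hg : DifferentiableOn ℂ g (ball 0 1)) {r M : ℝ} (hr0 : 0 < r)
    (hr1 : r < 1) (hM : ∀ z : ℂ, ‖z‖ = r → ‖g z‖ ≤ M) (n : ℕ) :
    ‖coeff n g‖ ≤ M / r ^ n := by
  have h1 := norm_iteratedDeriv_le_of_forall_mem_sphere_norm_le (f := g) (c := 0) n hr0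
    (hg.diffContOnCl_ball (closedBall_subset_ball hr1)) (C := M)
    (fun z hz => hM z (by simpa using hz))
  rw [coeff, norm_div]
  have h2 : ‖((n.factorial : ℕ) : ℂ)‖ = (n.factorial : ℝ) := by simp
  rw [h2, div_le_iff₀ (by positivity)]
  calc ‖iteratedDeriv n g 0‖ ≤ n.factorial * M / r ^ n := h1
    _ = M / r ^ n * n.factorial := by ring

lemma an {g : ℂ → ℂ} (hg : DifferentiableOn ℂ g (ball 0 1)) : AnalyticAt ℂ g 0 :=
  hg.analyticAt (Metric.ball_mem_nhds _ one_pos)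

lemma coeff_congr {g g' : ℂ → ℂ} (h : ∀ z ∈ ball (0 : ℂ) 1, g z = g' z) (n : ℕ) :
    coeff n g = coeff n g' := by
  have h1 : g =ᶠ[𝓝 0] g' := by
    filter_upwards [Metric.ball_mem_nhds (0 : ℂ) one_pos] with z hz using h z hz
  rw [coeff, coeff, h1.iteratedDeriv_eq n]

lemma coeff_add {g g' : ℂ → ℂ} (h : AnalyticAt ℂ g 0) (h' : AnalyticAt ℂ g' 0) (n : ℕ) :
    coeff n (fun z => g z + g' z) = coeff n g + coeff n g' := by
  apply hasSum_iff_at (c := fun k => coeff k g + coeff k g')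
  filter_upwards [hasSum_of_an h, hasSum_of_an h'] with z hz hz'
  have h1 := hz.add hz'
  have he : (fun k : ℕ => (coeff k g + coeff k g') * z ^ k) =
      fun k : ℕ => coeff k g * z ^ k + coeff k g' * z ^ k := by
    funext k; ring
  rw [he]; exact h1

lemma coeff_three {g1 g2 g3 : ℂ → ℂ} (h1 : AnalyticAt ℂ g1 0) (h2 : AnalyticAt ℂ g2 0)
    (h3 : AnalyticAt ℂ g3 0) (n : ℕ) :
    coeff n (fun z => g1 z - 2 * g2 z + g3 z) = coeff n g1 - 2 * coeff n g2 + coeff n g3 := by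
  apply hasSum_iff_at (c := fun k => coeff k g1 - 2 * coeff k g2 + coeff k g3)
  filter_upwards [hasSum_of_an h1, hasSum_of_an h2, hasSum_of_an h3] with z hz1 hz2 hz3
  have h := (hz1.sub (hz2.mul_left 2)).add hz3
  have he : (fun k : ℕ => (coeff k g1 - 2 * coeff k g2 + coeff k g3) * z ^ k) =
      fun k : ℕ => coeff k g1 * z ^ k - 2 * (coeff k g2 * z ^ k) + coeff k g3 * z ^ k := by
    funext k; ring
  rw [he]; exact h

/-- the radius -/
lemma radius (n : ℕ) (hn : 2 ≤ n) : ∃ r D : ℝ, D = 2 * n ∧ 0 < r ∧ r < 1 ∧ 1 - r = 1 / D ∧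
    1 / D ≤ 1 - r ^ 2 ∧ 1 / 4 ≤ r ^ (2 * (n - 1)) := by
  have hn' : (2 : ℝ) ≤ n := by exact_mod_cast hn
  have hD : (0 : ℝ) < 2 * n := by linarith
  have h1 : 1 / (2 * (n : ℝ)) ≤ 1 / 4 := by
    apply one_div_le_one_div_of_le <;> linarith
  have h0 : 0 < 1 / (2 * (n : ℝ)) := by positivity
  refine ⟨1 - 1 / (2 * n), 2 * n, rfl, by linarith, by linarith, by ring, ?_, ?_⟩
  · nlinarith
  · have h2 : (1 : ℝ) / 2 ≤ (1 - 1 / (2 * n)) ^ n := by
      have := one_add_mul_le_pow (a := -(1 / (2 * (n : ℝ)))) (by linarith) n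
      have h3 : 1 + (n : ℝ) * -(1 / (2 * n)) = 1 / 2 := by
        field_simp
        ring
      rw [h3] at this
      simpa [sub_eq_add_neg] using this
    have h4 : (1 - 1 / (2 * (n : ℝ))) ^ (2 * n) ≤ (1 - 1 / (2 * n)) ^ (2 * (n - 1)) := by
      apply pow_le_pow_of_le_one <;> first | linarith | omega
    have h5 : (1 - 1 / (2 * (n : ℝ))) ^ (2 * n) = ((1 - 1 / (2 * n)) ^ n) ^ 2 := by
      rw [mul_comm 2 n, pow_mul]
    nlinarith

lemma Yeq (Y : ℂ → ℂ) (hY : IsG Y) (z : ℂ) : z * hh Y z = Y z - (1 - z ^ 2) := by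
  have h1 : (z - 0) * dslope Y 0 z = Y z - Y 0 := by
    have := sub_smul_dslope Y 0 z
    simpa [smul_eq_mul] using this
  rw [hh]
  rw [hY.one, sub_zero] at h1
  linear_combination h1

lemma ker_ne {z : ℂ} (hz : z ∈ ball (0 : ℂ) 1) : 1 - z ^ 2 ≠ 0 := by
  intro h
  have h1 : z ^ 2 = 1 := by linear_combination -h
  have h2 : ‖z‖ ^ 2 = 1 := by rw [← norm_pow, h1, norm_one]
  have h3 : ‖z‖ < 1 := by simpa using hz
  nlinarith [norm_nonneg z]

lemma hh_diff (Y : ℂ → ℂ) (hY : IsG Y) : DifferentiableOn ℂ (hh Y) (ball 0 1) := by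
  have h1 : DifferentiableOn ℂ (dslope Y 0) (ball 0 1) :=
    (differentiableOn_dslope (Metric.ball_mem_nhds _ one_pos)).2 hY.diff
  exact h1.add differentiableOn_id

lemma conj_diff {g : ℂ → ℂ} (hg : DifferentiableOn ℂ g (ball 0 1)) :
    DifferentiableOn ℂ (fun z => conj (g (conj z))) (ball 0 1) := by
  intro z hz
  have hz' : conj z ∈ ball (0 : ℂ) 1 := by simpa using hz
  have h1 : DifferentiableAt ℂ g (conj z) := hg.differentiableAt (isOpen_ball.mem_nhds hz')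
  have h2 := h1.conj_conj
  rw [Complex.conj_conj] at h2
  exact h2.differentiableWithinAt

theorem main (hB : TaskB) (hU : UBound) (hYB : YBound) (f Y : ℂ → ℂ) (hf : InS f) (hY : IsG Y)
    (hfY : ∀ z ∈ ball (0 : ℂ) 1, f (z ^ 2) * Y z ^ 2 = z ^ 2) (n : ℕ) (hn : 2 ≤ n) :
      |((n : ℂ) - coeff n f).re| ≤ 10 ^ 6 * (n : ℝ) ^ 6 * ep Y ∧
      (coeff n f).im ^ 2 ≤ 10 ^ 7 * (n : ℝ) ^ 10 * ep Y := by
  obtain ⟨hep0, hep4, hhb⟩ := hB Y hY
  obtain ⟨r, D, hD, hr0, hr1, hrD, hrD2, hr4⟩ := radius n hn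
  have hn' : (2 : ℝ) ≤ n := by exact_mod_cast hn
  have hD4 : 4 ≤ D := by rw [hD]; linarith
  have hD0 : 0 < D := by linarith
  have hhd := hh_diff Y hY
  have hYd := hY.diff
  have hkd : DifferentiableOn ℂ (fun z : ℂ => 1 - z ^ 2) (ball 0 1) := by fun_prop
  -- the functions
  set K : ℂ → ℂ := fun z => 1 / Y z ^ 2 with hK
  set K0 : ℂ → ℂ := fun z => 1 / (1 - z ^ 2) ^ 2 with hK0
  set H : ℂ → ℂ := fun z => z * hh Y z / (1 - z ^ 2) ^ 3 with hH
  set Rr : ℂ → ℂ := fun z => (z * hh Y z) ^ 2 * (1 / ((1 - z ^ 2) ^ 2 * Y z ^ 2) +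
    2 / ((1 - z ^ 2) ^ 3 * Y z)) with hR
  set V : ℂ → ℂ := fun z => H z + conj (H (conj z)) with hV
  have dK : DifferentiableOn ℂ K (ball 0 1) := by
    apply DifferentiableOn.div (differentiableOn_const _) (hYd.pow 2)
    intro z hz
    exact pow_ne_zero _ (hY.ne z hz)
  have dK0 : DifferentiableOn ℂ K0 (ball 0 1) := by
    apply DifferentiableOn.div (differentiableOn_const _) (hkd.pow 2)
    intro z hz
    exact pow_ne_zero _ (ker_ne hz)
  have dH : DifferentiableOn ℂ H (ball 0 1) := by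
    apply DifferentiableOn.div (differentiableOn_id.mul hhd) (hkd.pow 3)
    intro z hz
    exact pow_ne_zero _ (ker_ne hz)
  have dR : DifferentiableOn ℂ Rr (ball 0 1) := by
    apply DifferentiableOn.mul ((differentiableOn_id.mul hhd).pow 2)
    apply DifferentiableOn.add
    · apply DifferentiableOn.div (differentiableOn_const _) ((hkd.pow 2).mul (hYd.pow 2))
      intro z hz
      exact mul_ne_zero (pow_ne_zero _ (ker_ne hz)) (pow_ne_zero _ (hY.ne z hz))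
    · apply DifferentiableOn.div (differentiableOn_const _) ((hkd.pow 3).mul hYd)
      intro z hz
      exact mul_ne_zero (pow_ne_zero _ (ker_ne hz)) (hY.ne z hz)
  have dHc := conj_diff dH
  have dV : DifferentiableOn ℂ V (ball 0 1) := dH.add dHc
  -- coefficient identity
  obtain ⟨m, rfl⟩ : ∃ m, n = m + 1 := ⟨n - 1, by omega⟩
  rw [Nat.add_sub_cancel] at hr4
  have hc1 : coeff (m + 1) f = coeff (2 * m) K := by
    rw [← coeff_sq (an hf.diff) (m + 1), ← coeff_shift (an dK) (2 * m)]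
    apply coeff_congr
    intro z hz
    have h1 := hY.ne z hz
    have h2 := hfY z hz
    simp only [hK]
    field_simp
    linear_combination h2
  have hc2 : coeff (2 * m) K = coeff (2 * m) K0 - 2 * coeff (2 * m) H + coeff (2 * m) Rr := by
    rw [← coeff_three (an dK0) (an dH) (an dR)]
    apply coeff_congr
    intro z hz
    have h1 := hY.ne z hz
    have h2 := ker_ne hz
    have h3 := Yeq Y hY z
    simp only [hK, hK0, hH, hR]
    rw [h3]
    field_simp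
    ring
  have hc3 : coeff (2 * m) K0 = m + 1 := coeff_koebe m
  have hc4 : coeff (2 * m) V = coeff (2 * m) H + conj (coeff (2 * m) H) := by
    rw [← coeff_conj (an dH)]
    exact coeff_add (an dH) (an dHc) _
  -- bounds on the circle
  have hzb : ∀ z : ℂ, ‖z‖ = r → z ∈ ball (0 : ℂ) 1 := by
    intro z hz
    simpa [hz] using hr1
  have bY : ∀ z : ℂ, ‖z‖ = r → ‖(Y z)⁻¹‖ ≤ D := by
    intro z hz
    have h1 := hYB Y hY z (hzb z hz)
    rw [hz] at h1
    rw [norm_inv]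
    apply inv_le_of_inv_le₀ hD0
    rw [← one_div]
    linarith
  have bk : ∀ z : ℂ, ‖z‖ = r → ‖(1 - z ^ 2)⁻¹‖ ≤ D := by
    intro z hz
    have h1 : ‖(1 : ℂ)‖ - ‖z ^ 2‖ ≤ ‖1 - z ^ 2‖ := norm_sub_norm_le _ _
    rw [norm_one, norm_pow, hz] at h1
    rw [norm_inv]
    apply inv_le_of_inv_le₀ hD0
    rw [← one_div]
    linarith
  have bh : ∀ z : ℂ, ‖z‖ = r → ‖z * hh Y z‖ ^ 2 ≤ ep Y * D := by
    intro z hz
    have h1 := hhb z (hzb z hz)
    rw [hz] at h1
    have h2 : ‖hh Y z‖ ^ 2 * (1 / D) ≤ ep Y := by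
      calc ‖hh Y z‖ ^ 2 * (1 / D) ≤ ‖hh Y z‖ ^ 2 * (1 - r ^ 2) :=
            mul_le_mul_of_nonneg_left hrD2 (by positivity)
        _ ≤ ep Y * r ^ 2 := h1
        _ ≤ ep Y * 1 := mul_le_mul_of_nonneg_left (by nlinarith) hep0
        _ = ep Y := mul_one _
    have h3 : ‖hh Y z‖ ^ 2 ≤ ep Y * D := by
      rw [mul_one_div, div_le_iff₀ hD0] at h2
      exact h2
    rw [norm_mul, mul_pow, hz]
    calc r ^ 2 * ‖hh Y z‖ ^ 2 ≤ 1 * ‖hh Y z‖ ^ 2 :=
          mul_le_mul_of_nonneg_right (by nlinarith) (by positivity)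
      _ ≤ ep Y * D := by rw [one_mul]; exact h3
  have bR : ∀ z : ℂ, ‖z‖ = r → ‖Rr z‖ ≤ 3 * ep Y * D ^ 5 := by
    intro z hz
    have h1 := bh z hz
    have h2 : ‖1 / ((1 - z ^ 2) ^ 2 * Y z ^ 2) + 2 / ((1 - z ^ 2) ^ 3 * Y z)‖ ≤ 3 * D ^ 4 := by
      have e1 : ‖1 / ((1 - z ^ 2) ^ 2 * Y z ^ 2)‖ ≤ D ^ 4 := by
        have : 1 / ((1 - z ^ 2) ^ 2 * Y z ^ 2) = ((1 - z ^ 2)⁻¹) ^ 2 * ((Y z)⁻¹) ^ 2 := by
          rw [one_div, mul_inv, inv_pow, inv_pow]
        rw [this, norm_mul, norm_pow, norm_pow]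
        calc ‖(1 - z ^ 2)⁻¹‖ ^ 2 * ‖(Y z)⁻¹‖ ^ 2 ≤ D ^ 2 * D ^ 2 := by
              exact mul_le_mul (pow_le_pow_left₀ (norm_nonneg _) (bk z hz) 2)
                (pow_le_pow_left₀ (norm_nonneg _) (bY z hz) 2) (by positivity) (by positivity)
          _ = D ^ 4 := by ring
      have e2 : ‖2 / ((1 - z ^ 2) ^ 3 * Y z)‖ ≤ 2 * D ^ 4 := by
        have : 2 / ((1 - z ^ 2) ^ 3 * Y z) = 2 * (((1 - z ^ 2)⁻¹) ^ 3 * (Y z)⁻¹) := by
          rw [div_eq_mul_inv, mul_inv, inv_pow]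
        rw [this, norm_mul, norm_mul, norm_pow, Complex.norm_two]
        have : ‖(1 - z ^ 2)⁻¹‖ ^ 3 * ‖(Y z)⁻¹‖ ≤ D ^ 3 * D := by
          exact mul_le_mul (pow_le_pow_left₀ (norm_nonneg _) (bk z hz) 3) (bY z hz)
            (norm_nonneg _) (by positivity)
        calc 2 * (‖(1 - z ^ 2)⁻¹‖ ^ 3 * ‖(Y z)⁻¹‖) ≤ 2 * (D ^ 3 * D) := by linarith
          _ = 2 * D ^ 4 := by ring
      calc _ ≤ ‖1 / ((1 - z ^ 2) ^ 2 * Y z ^ 2)‖ + ‖2 / ((1 - z ^ 2) ^ 3 * Y z)‖ := norm_add_le _ _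
        _ ≤ 3 * D ^ 4 := by linarith
    simp only [hR]
    rw [norm_mul, norm_pow]
    calc ‖z * hh Y z‖ ^ 2 * ‖1 / ((1 - z ^ 2) ^ 2 * Y z ^ 2) + 2 / ((1 - z ^ 2) ^ 3 * Y z)‖
        ≤ (ep Y * D) * (3 * D ^ 4) := by
          apply mul_le_mul h1 h2 (norm_nonneg _) (by positivity)
      _ = 3 * ep Y * D ^ 5 := by ring
  have bH : ∀ z : ℂ, ‖z‖ = r → ‖H z‖ ≤ Real.sqrt (ep Y * D) * D ^ 3 := by
    intro z hz
    have h1 : ‖z * hh Y z‖ ≤ Real.sqrt (ep Y * D) := Real.le_sqrt_of_sq_le (bh z hz)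
    have : H z = (z * hh Y z) * ((1 - z ^ 2)⁻¹) ^ 3 := by
      simp only [hH]
      rw [div_eq_mul_inv, inv_pow]
    rw [this, norm_mul, norm_pow]
    apply mul_le_mul h1 (pow_le_pow_left₀ (norm_nonneg _) (bk z hz) 3) (by positivity)
      (Real.sqrt_nonneg _)
  have bV : ∀ z : ℂ, ‖z‖ = r → ‖V z‖ ≤ 1024 * ep Y * D ^ 6 := by
    intro z hz
    have h1 := hU Y hY z (hzb z hz)
    rw [hz, hrD] at h1
    have h2 : ‖hh Y z + conj (hh Y (conj z))‖ ≤ 1024 * ep Y * D ^ 3 := by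
      have h3 : (1 / D) ^ 3 = 1 / D ^ 3 := by rw [one_div_pow]
      rw [h3, mul_one_div, div_le_iff₀ (by positivity)] at h1
      exact h1
    have h4 : V z = z * (hh Y z + conj (hh Y (conj z))) * ((1 - z ^ 2)⁻¹) ^ 3 := by
      simp only [hV, hH]
      rw [inv_pow, ← div_eq_mul_inv]
      simp only [map_div₀, map_mul, Complex.conj_conj, map_pow, map_sub, map_one]
      ring
    rw [h4, norm_mul, norm_mul, norm_pow, hz]
    calc r * ‖hh Y z + conj (hh Y (conj z))‖ * ‖(1 - z ^ 2)⁻¹‖ ^ 3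
        ≤ 1 * (1024 * ep Y * D ^ 3) * D ^ 3 := by
          apply mul_le_mul _ (pow_le_pow_left₀ (norm_nonneg _) (bk z hz) 3) (by positivity)
            (by positivity)
          exact mul_le_mul hr1.le h2 (norm_nonneg _) zero_le_one
      _ = 1024 * ep Y * D ^ 6 := by ring
  have four : ∀ M : ℝ, 0 ≤ M → M / r ^ (2 * m) ≤ 4 * M := by
    intro M hM
    rw [div_le_iff₀ (by positivity)]
    nlinarith
  have cR : ‖coeff (2 * m) Rr‖ ≤ 4 * (3 * ep Y * D ^ 5) :=
    (cauchy dR hr0 hr1 bR _).trans (four _ (by positivity))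
  have cV : ‖coeff (2 * m) V‖ ≤ 4 * (1024 * ep Y * D ^ 6) :=
    (cauchy dV hr0 hr1 bV _).trans (four _ (by positivity))
  have cH : ‖coeff (2 * m) H‖ ≤ 4 * (Real.sqrt (ep Y * D) * D ^ 3) :=
    (cauchy dH hr0 hr1 bH _).trans (four _ (by positivity))
  have key : ((m + 1 : ℕ) : ℂ) - coeff (m + 1) f =
      2 * coeff (2 * m) H - coeff (2 * m) Rr := by
    rw [hc1, hc2, hc3]
    push_cast
    ring
  have hnR : (0 : ℝ) ≤ ((m + 1 : ℕ) : ℝ) := by positivity
  constructor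
  · have h1 : (((m + 1 : ℕ) : ℂ) - coeff (m + 1) f).re =
        (coeff (2 * m) V).re - (coeff (2 * m) Rr).re := by
      rw [key, hc4]
      simp
      ring
    rw [h1]
    have h2 : |(coeff (2 * m) V).re| ≤ 4 * (1024 * ep Y * D ^ 6) :=
      (Complex.abs_re_le_norm _).trans cV
    have h3 : |(coeff (2 * m) Rr).re| ≤ 4 * (3 * ep Y * D ^ 5) :=
      (Complex.abs_re_le_norm _).trans cR
    have h4 := abs_sub (coeff (2 * m) V).re (coeff (2 * m) Rr).re
    have h5 : D ^ 6 = 64 * ((m + 1 : ℕ) : ℝ) ^ 6 := by rw [hD]; ring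
    have h6 : D ^ 5 ≤ D ^ 6 := pow_le_pow_right₀ (by linarith) (by norm_num)
    have h7 : ep Y * D ^ 5 ≤ ep Y * D ^ 6 := mul_le_mul_of_nonneg_left h6 hep0
    have h8 : 0 ≤ ep Y * ((m + 1 : ℕ) : ℝ) ^ 6 := by positivity
    calc _ ≤ |(coeff (2 * m) V).re| + |(coeff (2 * m) Rr).re| := h4
      _ ≤ 4108 * (ep Y * D ^ 6) := by linarith
      _ = 262912 * (ep Y * ((m + 1 : ℕ) : ℝ) ^ 6) := by rw [h5]; ring
      _ ≤ 10 ^ 6 * ((m + 1 : ℕ) : ℝ) ^ 6 * ep Y := by nlinarith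
  · have h1 : (coeff (m + 1) f).im = -(((m + 1 : ℕ) : ℂ) - coeff (m + 1) f).im := by
      simp
    have h2 : (coeff (m + 1) f).im ^ 2 ≤ ‖2 * coeff (2 * m) H - coeff (2 * m) Rr‖ ^ 2 := by
      rw [h1, key, neg_sq, ← sq_abs]
      exact pow_le_pow_left₀ (abs_nonneg _) (Complex.abs_im_le_norm _) 2
    have h3 : ‖2 * coeff (2 * m) H - coeff (2 * m) Rr‖ ≤
        8 * (Real.sqrt (ep Y * D) * D ^ 3) + 12 * (ep Y * D ^ 5) := by
      calc _ ≤ ‖2 * coeff (2 * m) H‖ + ‖coeff (2 * m) Rr‖ := norm_sub_le _ _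
        _ ≤ _ := by
          rw [norm_mul, Complex.norm_two]
          linarith
    have h4 : Real.sqrt (ep Y * D) ^ 2 = ep Y * D := Real.sq_sqrt (by positivity)
    have h5 : ‖2 * coeff (2 * m) H - coeff (2 * m) Rr‖ ^ 2 ≤
        2 * (8 * (Real.sqrt (ep Y * D) * D ^ 3)) ^ 2 + 2 * (12 * (ep Y * D ^ 5)) ^ 2 := by
      have h6 := pow_le_pow_left₀ (norm_nonneg _) h3 2
      nlinarith [sq_nonneg (8 * (Real.sqrt (ep Y * D) * D ^ 3) - 12 * (ep Y * D ^ 5))]
    have h6 : (8 * (Real.sqrt (ep Y * D) * D ^ 3)) ^ 2 = 64 * (ep Y * D ^ 7) := by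
      calc _ = 64 * (Real.sqrt (ep Y * D) ^ 2 * D ^ 6) := by ring
        _ = 64 * (ep Y * D ^ 7) := by rw [h4]; ring
    have h7 : (12 * (ep Y * D ^ 5)) ^ 2 ≤ 576 * (ep Y * D ^ 10) := by
      calc (12 * (ep Y * D ^ 5)) ^ 2 = 144 * (ep Y * (ep Y * D ^ 10)) := by ring
        _ ≤ 144 * (4 * (ep Y * D ^ 10)) := by
            apply mul_le_mul_of_nonneg_left _ (by norm_num)
            exact mul_le_mul_of_nonneg_right hep4 (by positivity)
        _ = 576 * (ep Y * D ^ 10) := by ring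
    have h8 : D ^ 7 ≤ D ^ 10 := pow_le_pow_right₀ (by linarith) (by norm_num)
    have h9 : ep Y * D ^ 7 ≤ ep Y * D ^ 10 := mul_le_mul_of_nonneg_left h8 hep0
    have h10 : D ^ 10 = 1024 * ((m + 1 : ℕ) : ℝ) ^ 10 := by rw [hD]; ring
    have h11 : 0 ≤ ep Y * ((m + 1 : ℕ) : ℝ) ^ 10 := by positivity
    calc _ ≤ _ := h2
      _ ≤ _ := h5
      _ ≤ 1280 * (ep Y * D ^ 10) := by rw [h6]; linarith
      _ = 1310720 * (ep Y * ((m + 1 : ℕ) : ℝ) ^ 10) := by rw [h10]; ring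
      _ ≤ 10 ^ 7 * ((m + 1 : ℕ) : ℝ) ^ 10 * ep Y := by nlinarith

end Pool.Agent.H33R3.Bom.I1

namespace Pool.Agent.H33R3.Bom

theorem taskI1 : TaskI1 := by
  intro hB hU hYB f Y hf hY hfY n hn
  exact I1.main hB hU hYB f Y hf hY hfY n hn

end Pool.Agent.H33R3.Bom
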