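import Pool.Agent.H33R3.Bom.Stmts

set_option autoImplicit false

/-! Lower bound for the constants, from `z / (1 - 2 (1 - x) z + z ^ 2)`. -/

namespace Pool.Agent.H33R3.Bom.LB

open Complex Metric Set Filter Topology

theorem hfp {a : ℕ → ℂ} {g : ℂ → ℂ} (ha : ∀ z ∈ ball (0 : ℂ) 1, HasSum (fun n => a n * z ^ n) (g z)) :
    HasFPowerSeriesAt g (FormalMultilinearSeries.ofScalars ℂ a) 0 := by
  rw [hasFPowerSeriesAt_iff]
  filter_upwards [ball_mem_nhds (0 : ℂ) one_pos] with z hz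
  have := ha z hz
  rw [zero_add]
  convert! this using 1
  funext n
  rw [FormalMultilinearSeries.coeff_ofScalars, smul_eq_mul, mul_comm]

theorem unique {a b : ℕ → ℂ} {g : ℂ → ℂ}
    (ha : ∀ z ∈ ball (0 : ℂ) 1, HasSum (fun n => a n * z ^ n) (g z))
    (hb : ∀ z ∈ ball (0 : ℂ) 1, HasSum (fun n => b n * z ^ n) (g z)) (n : ℕ) : a n = b n := by
  have h := (hfp ha).eq_formalMultilinearSeries (hfp hb)
  have := congrArg (fun p => FormalMultilinearSeries.coeff p n) h
  simpa [FormalMultilinearSeries.coeff_ofScalars] using this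

theorem hasSum_coeff {g : ℂ → ℂ} (hg : DifferentiableOn ℂ g (ball 0 1)) :
    ∀ z ∈ ball (0 : ℂ) 1, HasSum (fun n => coeff n g * z ^ n) (g z) := by
  intro z hz
  have := Complex.hasSum_taylorSeries_on_ball (c := 0) (r := 1) (f := g) hg (z := z) hz
  convert! this using 1
  funext n
  rw [sub_zero, smul_eq_mul, smul_eq_mul, coeff]
  field_simp

/-- the denominator -/
def den (x : ℝ) (z : ℂ) : ℂ := 1 - 2 * ((1 - x : ℝ) : ℂ) * z + z ^ 2

theorem den_ne (x : ℝ) (h0 : 0 < x) (h1 : x < 1) (z : ℂ) (hz : ‖z‖ < 1) : den x z ≠ 0 := by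
  -- factor with unimodular roots
  obtain ⟨y, hy⟩ : ∃ y : ℝ, y = Real.sqrt (1 - (1 - x) ^ 2) := ⟨_, rfl⟩
  have hy2 : y ^ 2 = 1 - (1 - x) ^ 2 := by
    rw [hy, Real.sq_sqrt]
    nlinarith
  have hfac : den x z = (z - ⟨1 - x, y⟩) * (z - ⟨1 - x, -y⟩) := by
    have e1 : ((⟨1 - x, y⟩ : ℂ)) = ((1 - x : ℝ) : ℂ) + (y : ℂ) * I := by
      apply Complex.ext <;> simp
    have e2 : ((⟨1 - x, -y⟩ : ℂ)) = ((1 - x : ℝ) : ℂ) - (y : ℂ) * I := by
      apply Complex.ext <;> simp
    rw [e1, e2, den]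
    have h3 : ((y : ℂ)) ^ 2 = 1 - ((1 - x : ℝ) : ℂ) ^ 2 := by
      rw [← ofReal_pow, hy2]
      push_cast
      ring
    have hI : (I : ℂ) ^ 2 = -1 := I_sq
    linear_combination (-1 : ℂ) * h3 + (y : ℂ) ^ 2 * hI
  rw [hfac]
  have hn : ∀ t : ℝ, t ^ 2 = y ^ 2 → ‖(⟨1 - x, t⟩ : ℂ)‖ = 1 := by
    intro t ht
    have : ‖(⟨1 - x, t⟩ : ℂ)‖ ^ 2 = 1 := by
      rw [← Complex.normSq_eq_norm_sq, Complex.normSq_mk]
      nlinarith
    have h3 : (‖(⟨1 - x, t⟩ : ℂ)‖ - 1) * (‖(⟨1 - x, t⟩ : ℂ)‖ + 1) = 0 := by linarith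
    rcases mul_eq_zero.1 h3 with h | h
    · linarith
    · have := norm_nonneg (⟨1 - x, t⟩ : ℂ)
      linarith
  apply mul_ne_zero
  · intro h
    rw [sub_eq_zero] at h
    rw [h, hn y rfl] at hz
    exact lt_irrefl _ hz
  · intro h
    rw [sub_eq_zero] at h
    rw [h, hn (-y) (by ring)] at hz
    exact lt_irrefl _ hz

/-- the test function -/
noncomputable def ff (x : ℝ) (z : ℂ) : ℂ := z / den x z

theorem ff_inS (x : ℝ) (h0 : 0 < x) (h1 : x < 1) : InS (ff x) := by
  have hd : DifferentiableOn ℂ (ff x) (ball 0 1) := by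
    intro z hz
    rw [mem_ball_zero_iff] at hz
    unfold ff
    apply DifferentiableAt.differentiableWithinAt
    apply DifferentiableAt.div differentiableAt_id _ (den_ne x h0 h1 z hz)
    unfold den
    fun_prop
  refine ⟨hd, ?_, ?_, ?_⟩
  · intro z hz w hw h
    rw [mem_ball_zero_iff] at hz hw
    have hz' := den_ne x h0 h1 z hz
    have hw' := den_ne x h0 h1 w hw
    have e : z * den x w = w * den x z := by
      have h' : z / den x z = w / den x w := h
      rwa [div_eq_div_iff hz' hw'] at h'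
    have e2 : (z - w) * (1 - z * w) = 0 := by
      unfold den at e
      linear_combination e
    rcases mul_eq_zero.1 e2 with h3 | h3
    · exact sub_eq_zero.1 h3
    · exfalso
      have : ‖z * w‖ < 1 := by
        rw [norm_mul]
        nlinarith [norm_nonneg z, norm_nonneg w]
      have h4 : z * w = 1 := (sub_eq_zero.1 h3).symm
      rw [h4, norm_one] at this
      exact lt_irrefl _ this
  · simp [ff]
  · have h2 : HasDerivAt (ff x) ((1 * den x 0 - 0 * (-(2 * ((1 - x : ℝ) : ℂ)))) / den x 0 ^ 2) 0 := by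
      apply HasDerivAt.div (hasDerivAt_id (0 : ℂ))
      · have a1 : HasDerivAt (fun z : ℂ => 1 - 2 * ((1 - x : ℝ) : ℂ) * z + z ^ 2)
            (0 - 2 * ((1 - x : ℝ) : ℂ) * 1 + ((2 : ℕ) : ℂ) * 0 ^ (2 - 1)) 0 :=
          ((hasDerivAt_const (0 : ℂ) (1 : ℂ)).sub ((hasDerivAt_id (0 : ℂ)).const_mul _)).add
            (hasDerivAt_pow 2 (0 : ℂ))
        convert! a1 using 1
        simp
      · exact den_ne x h0 h1 0 (by simp)
    rw [h2.deriv]
    simp [den]

/-- the coefficients of `ff x` -/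
def aa (x : ℝ) : ℕ → ℝ
  | 0 => 0
  | 1 => 1
  | n + 2 => 2 * (1 - x) * aa x (n + 1) - aa x n

theorem coeff_ff (x : ℝ) (h0 : 0 < x) (h1 : x < 1) (n : ℕ) : coeff n (ff x) = (aa x n : ℂ) := by
  have hS := ff_inS x h0 h1
  have hs := hasSum_coeff hS.diff
  obtain ⟨τ, hτ⟩ : ∃ τ : ℕ → ℂ, τ = fun n => coeff n (ff x) := ⟨_, rfl⟩
  have hs' : ∀ z ∈ ball (0 : ℂ) 1, HasSum (fun n => τ n * z ^ n) (ff x z) := by
    rw [hτ]; exact hs
  -- shifted sums
  obtain ⟨u, hu⟩ : ∃ u : ℕ → ℂ, u = fun n => τ n - 2 * ((1 - x : ℝ) : ℂ) *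
      (if 1 ≤ n then τ (n - 1) else 0) + (if 2 ≤ n then τ (n - 2) else 0) := ⟨_, rfl⟩
  have hshift : ∀ (m : ℕ) (z : ℂ), z ∈ ball (0 : ℂ) 1 →
      HasSum (fun n => (if m ≤ n then τ (n - m) else 0) * z ^ n) (z ^ m * ff x z) := by
    intro m z hz
    have h2 := (hs' z hz).mul_left (z ^ m)
    have h3 : HasSum (fun n => (fun n => (if m ≤ n then τ (n - m) else 0) * z ^ n) (n + m))
        (z ^ m * ff x z) := by
      convert! h2 using 1
      funext n
      simp only [Nat.le_add_left, if_true, Nat.add_sub_cancel]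
      rw [pow_add]
      ring
    have h3 := (hasSum_nat_add_iff (f := fun n => (if m ≤ n then τ (n - m) else 0) * z ^ n) m).1 h3
    have h4 : ∑ i ∈ Finset.range m, (if m ≤ i then τ (i - m) else 0) * z ^ i = 0 := by
      apply Finset.sum_eq_zero
      intro i hi
      rw [Finset.mem_range] at hi
      rw [if_neg (by omega), zero_mul]
    rw [h4, add_zero] at h3
    exact h3
  have hsum : ∀ z ∈ ball (0 : ℂ) 1, HasSum (fun n => u n * z ^ n) z := by
    intro z hz
    have k0 := hs' z hz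
    have k1 := (hshift 1 z hz).mul_left (2 * ((1 - x : ℝ) : ℂ))
    have k2 := hshift 2 z hz
    have k3 := (k0.sub k1).add k2
    have e : ff x z - 2 * ((1 - x : ℝ) : ℂ) * (z ^ 1 * ff x z) + z ^ 2 * ff x z = z := by
      have hz' := den_ne x h0 h1 z (by rwa [mem_ball_zero_iff] at hz)
      have : ff x z * den x z = z := div_mul_cancel₀ _ hz'
      calc _ = ff x z * den x z := by unfold den; ring
        _ = z := this
    rw [e] at k3
    convert! k3 using 1
    funext n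
    rw [hu]
    ring
  have hone : ∀ z ∈ ball (0 : ℂ) 1, HasSum (fun n : ℕ => (if n = 1 then (1 : ℂ) else 0) * z ^ n) z := by
    intro z _
    have := hasSum_single (f := fun n : ℕ => (if n = 1 then (1 : ℂ) else 0) * z ^ n) 1 (by
      intro k hk
      simp [hk])
    simpa using this
  have heq := fun n => unique hsum hone n
  have hmain : ∀ n : ℕ, τ n = (aa x n : ℂ) ∧ τ (n + 1) = (aa x (n + 1) : ℂ) := by
    intro n
    induction n with
    | zero =>
      have e0 := heq 0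
      have e1 := heq 1
      rw [hu] at e0 e1
      simp at e0 e1
      rw [e0] at e1
      simp at e1
      exact ⟨by rw [e0]; simp [aa], by rw [zero_add, e1]; simp [aa]⟩
    | succ n ih =>
      refine ⟨ih.2, ?_⟩
      have e2 := heq (n + 2)
      rw [hu] at e2
      simp only [Nat.le_add_left, if_true, Nat.add_sub_cancel] at e2
      rw [if_neg (show ¬ (n + 2 = 1) by omega),
        show n + 2 - 1 = n + 1 from rfl, ih.1, ih.2] at e2
      rw [show n + 1 + 1 = n + 2 from rfl, aa]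
      push_cast
      push_cast at e2
      linear_combination e2
  have := (hmain n).1
  rw [hτ] at this
  exact this

/-- `aa x n = n - x * ee x n` -/
def ee (x : ℝ) : ℕ → ℝ
  | 0 => 0
  | 1 => 0
  | n + 2 => 2 * ee x (n + 1) + 2 * ((n : ℝ) + 1) - 2 * x * ee x (n + 1) - ee x n

theorem aa_eq (x : ℝ) (n : ℕ) : aa x n = n - x * ee x n ∧
    aa x (n + 1) = ((n : ℝ) + 1) - x * ee x (n + 1) := by
  induction n with
  | zero => simp [aa, ee]
  | succ n ih =>
    refine ⟨by push_cast; exact ih.2, ?_⟩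
    rw [show n + 1 + 1 = n + 2 from rfl, aa, ee, ih.1, ih.2]
    push_cast
    ring

theorem ee_cont (n : ℕ) : Continuous (fun x => ee x n) ∧ Continuous (fun x => ee x (n + 1)) := by
  induction n with
  | zero => simp only [ee]; exact ⟨continuous_const, continuous_const⟩
  | succ n ih =>
    refine ⟨ih.2, ?_⟩
    have h1 := ih.1
    have h2 := ih.2
    simp only [ee]
    fun_prop

theorem ee_zero (n : ℕ) : ee 0 n = ((n : ℝ) ^ 3 - n) / 3 ∧
    ee 0 (n + 1) = (((n : ℝ) + 1) ^ 3 - (n + 1)) / 3 := by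
  induction n with
  | zero => simp [ee]
  | succ n ih =>
    refine ⟨by push_cast; exact ih.2, ?_⟩
    rw [show n + 1 + 1 = n + 2 from rfl, ee, ih.1, ih.2]
    push_cast
    ring

theorem lower (n : ℕ) (c : ℝ) (hc : ∀ x : ℝ, 0 < x → x < 1 → x * ee x n ≤ c * (2 * x)) :
    ((n : ℝ) ^ 3 - n) / 6 ≤ c := by
  have h1 : Tendsto (fun x => ee x n) (𝓝[>] 0) (𝓝 (ee 0 n)) :=
    ((ee_cont n).1.tendsto 0).mono_left nhdsWithin_le_nhds
  have h2 : ee 0 n ≤ 2 * c := by
    apply le_of_tendsto h1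
    filter_upwards [Ioo_mem_nhdsGT (zero_lt_one' ℝ)] with x hx
    have := hc x hx.1 hx.2
    have h3 : x * ee x n ≤ x * (2 * c) := by linarith
    exact le_of_mul_le_mul_left h3 hx.1
  rw [(ee_zero n).1] at h2
  linarith

/-- lower bound for the constants of Q1 -/
theorem lower1 (n : ℕ) (c : ℝ) (hc : ∀ f, InS f →
    |((n : ℂ) - coeff n f).re| ≤ c * ((2 : ℂ) - coeff 2 f).re) : ((n : ℝ) ^ 3 - n) / 6 ≤ c := by
  apply lower
  intro x h0 h1
  have h := hc (ff x) (ff_inS x h0 h1)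
  rw [coeff_ff x h0 h1, coeff_ff x h0 h1] at h
  have e1 : ((n : ℂ) - (aa x n : ℂ)).re = x * ee x n := by
    rw [sub_re, natCast_re, ofReal_re, (aa_eq x n).1]
    ring
  have e2 : ((2 : ℂ) - (aa x 2 : ℂ)).re = 2 * x := by
    rw [sub_re, re_ofNat, ofReal_re]
    simp [aa]
    ring
  rw [e1, e2] at h
  exact (le_abs_self _).trans h

/-- lower bound for the constants of Q2 -/
theorem lower2 (n : ℕ) (c : ℝ) (hc : ∀ f, InS f →
    |(n : ℝ) - ‖coeff n f‖| ≤ c * (2 - ‖coeff 2 f‖)) : ((n : ℝ) ^ 3 - n) / 6 ≤ c := by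
  rcases Nat.eq_zero_or_pos n with hn | hn
  · subst hn
    have h := hc (ff (1 / 2)) (ff_inS _ (by norm_num) (by norm_num))
    rw [coeff_ff _ (by norm_num) (by norm_num), coeff_ff _ (by norm_num) (by norm_num)] at h
    simp [aa] at h
    norm_num at h
    simp
    linarith
  · have h1 : Tendsto (fun x => ee x n) (𝓝[>] 0) (𝓝 (ee 0 n)) :=
      ((ee_cont n).1.tendsto 0).mono_left nhdsWithin_le_nhds
    have h3 : Tendsto (fun x => (n : ℝ) - x * ee x n) (𝓝[>] 0) (𝓝 ((n : ℝ) - 0 * ee 0 n)) := by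
      have hc1 : Continuous (fun x => (n : ℝ) - x * ee x n) := by
        have := (ee_cont n).1
        fun_prop
      exact (hc1.tendsto 0).mono_left nhdsWithin_le_nhds
    rw [zero_mul, sub_zero] at h3
    have hn' : (0 : ℝ) < (n : ℝ) := by exact_mod_cast hn
    have h2 : ee 0 n ≤ 2 * c := by
      apply le_of_tendsto h1
      filter_upwards [Ioo_mem_nhdsGT (zero_lt_one' ℝ), h3.eventually (lt_mem_nhds hn')] with x hx hx2
      have h := hc (ff x) (ff_inS x hx.1 hx.2)
      rw [coeff_ff x hx.1 hx.2, coeff_ff x hx.1 hx.2] at h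
      have e1 : ‖((aa x n : ℝ) : ℂ)‖ = (n : ℝ) - x * ee x n := by
        rw [Complex.norm_real, (aa_eq x n).1, Real.norm_of_nonneg hx2.le]
      have e2 : ‖((aa x 2 : ℝ) : ℂ)‖ = 2 - 2 * x := by
        rw [Complex.norm_real]
        have : aa x 2 = 2 - 2 * x := by simp [aa]; ring
        rw [this, Real.norm_of_nonneg (by linarith [hx.2])]
      rw [e1, e2] at h
      have h4 := (le_abs_self _).trans h
      have h5 : x * ee x n ≤ x * (2 * c) := by linarith
      exact le_of_mul_le_mul_left h5 hx.1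
    rw [(ee_zero n).1] at h2
    linarith

end Pool.Agent.H33R3.Bom.LB
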