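import Pool.Agent.H33R3.Bom.Stmts

set_option autoImplicit false

/-! Task C5: assembly of the Grunsky type inequality. -/

namespace Pool.Agent.H33R3.Bom

open Complex Metric Set Filter Topology

namespace C5

/-- coefficients of the logarithm -/
noncomputable def ell (ζ : ℂ) (k : ℕ) : ℂ := if Odd k then 2 / (k : ℂ) * ζ ^ k else 0

theorem ell_norm_le (ζ : ℂ) (k : ℕ) : ‖ell ζ k‖ ≤ 2 * ‖ζ‖ ^ k := by
  unfold ell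
  split_ifs with h
  · have hk : (1 : ℝ) ≤ (k : ℝ) := by
      have := h.pos
      exact_mod_cast this
    rw [norm_mul, norm_div, norm_pow, Complex.norm_natCast, Complex.norm_ofNat]
    apply mul_le_mul_of_nonneg_right _ (by positivity)
    rw [div_le_iff₀ (by linarith)]
    linarith
  · rw [norm_zero]
    positivity

theorem dd_eq (s t₁ t₂ ζ₁ ζ₂ : ℂ) (k : ℕ) :
    dd s t₁ t₂ ζ₁ ζ₂ k = (if k = 1 then s else 0) + (t₁ * ell ζ₁ k + t₂ * ell ζ₂ k) := by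
  unfold dd ell
  split_ifs <;> ring

theorem dd_norm_le (s t₁ t₂ ζ₁ ζ₂ : ℂ) {r₀ : ℝ} (h0 : 0 < r₀) (h1 : ‖ζ₁‖ ≤ r₀)
    (h2 : ‖ζ₂‖ ≤ r₀) (k : ℕ) :
    ‖dd s t₁ t₂ ζ₁ ζ₂ k‖ ≤ (‖s‖ / r₀ + 2 * ‖t₁‖ + 2 * ‖t₂‖) * r₀ ^ k := by
  rw [dd_eq]
  have e1 : ‖(if k = 1 then s else 0 : ℂ)‖ ≤ ‖s‖ / r₀ * r₀ ^ k := by
    split_ifs with h
    · rw [h, pow_one, div_mul_cancel₀ _ h0.ne']
    · rw [norm_zero]
      positivity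
  have e2 : ‖t₁ * ell ζ₁ k‖ ≤ 2 * ‖t₁‖ * r₀ ^ k := by
    rw [norm_mul]
    have := ell_norm_le ζ₁ k
    have h3 : ‖ζ₁‖ ^ k ≤ r₀ ^ k := pow_le_pow_left₀ (norm_nonneg _) h1 k
    nlinarith [norm_nonneg t₁]
  have e3 : ‖t₂ * ell ζ₂ k‖ ≤ 2 * ‖t₂‖ * r₀ ^ k := by
    rw [norm_mul]
    have := ell_norm_le ζ₂ k
    have h3 : ‖ζ₂‖ ^ k ≤ r₀ ^ k := pow_le_pow_left₀ (norm_nonneg _) h2 k
    nlinarith [norm_nonneg t₂]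
  calc _ ≤ ‖(if k = 1 then s else 0 : ℂ)‖ + (‖t₁ * ell ζ₁ k‖ + ‖t₂ * ell ζ₂ k‖) :=
        (norm_add_le _ _).trans (add_le_add le_rfl (norm_add_le _ _))
    _ ≤ _ := by linarith

theorem summable_ell (ζ z : ℂ) (h : ‖ζ‖ < ‖z‖) : Summable fun k => ell ζ k * (z⁻¹) ^ k := by
  have hz : 0 < ‖z‖ := (norm_nonneg _).trans_lt h
  have h1 : ‖ζ‖ / ‖z‖ < 1 := (div_lt_one hz).2 h
  apply Summable.of_norm_bounded ((summable_geometric_of_lt_one (by positivity) h1).mul_left 2)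
  intro k
  rw [norm_mul, norm_pow, norm_inv, div_pow]
  calc ‖ell ζ k‖ * (‖z‖⁻¹) ^ k ≤ 2 * ‖ζ‖ ^ k * (‖z‖⁻¹) ^ k :=
        mul_le_mul_of_nonneg_right (ell_norm_le ζ k) (by positivity)
    _ = 2 * (‖ζ‖ ^ k / ‖z‖ ^ k) := by rw [inv_pow]; ring

theorem tsum_dd (s t₁ t₂ ζ₁ ζ₂ z : ℂ) (h1 : ‖ζ₁‖ < ‖z‖) (h2 : ‖ζ₂‖ < ‖z‖) :
    ∑' k, dd s t₁ t₂ ζ₁ ζ₂ k * (z⁻¹) ^ k =
      s * z⁻¹ + t₁ * (∑' k, ell ζ₁ k * (z⁻¹) ^ k) + t₂ * (∑' k, ell ζ₂ k * (z⁻¹) ^ k) := by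
  have e1 : HasSum (fun k : ℕ => (if k = 1 then s else 0) * (z⁻¹) ^ k) (s * z⁻¹) := by
    have := hasSum_single (f := fun k : ℕ => (if k = 1 then s else 0) * (z⁻¹) ^ k) 1 (by
      intro k hk
      simp [hk])
    simpa using this
  have e2 := (summable_ell ζ₁ z h1).hasSum.mul_left t₁
  have e3 := (summable_ell ζ₂ z h2).hasSum.mul_left t₂
  have e4 := (e1.add e2).add e3
  rw [← e4.tsum_eq]
  apply tsum_congr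
  intro k
  rw [dd_eq]
  ring

end C5

open C5

theorem taskC5 : TaskC5 := by
  intro hC5a hC2 hC3 hC4 Y hY ζ₁ ζ₂ A₁ A₂ hζ₁ hζ₂ hn₁ hn₂ hA₁ hA₂ s t₁ t₂ c hc N
  obtain ⟨r₀, hr₀⟩ : ∃ r₀, r₀ = max ‖ζ₁‖ ‖ζ₂‖ := ⟨_, rfl⟩
  have h1 : ‖ζ₁‖ ≤ r₀ := hr₀ ▸ le_max_left _ _
  have h2 : ‖ζ₂‖ ≤ r₀ := hr₀ ▸ le_max_right _ _
  have h0 : 0 < r₀ := (norm_pos_iff.2 hζ₁).trans_le h1
  have hr1 : r₀ < 1 := hr₀ ▸ max_lt hn₁ hn₂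
  obtain ⟨C, hCd⟩ : ∃ C, C = ‖s‖ / r₀ + 2 * ‖t₁‖ + 2 * ‖t₂‖ := ⟨_, rfl⟩
  have hC0 : 0 ≤ C := by rw [hCd]; positivity
  have hd : ∀ k, ‖dd s t₁ t₂ ζ₁ ζ₂ k‖ ≤ C * r₀ ^ k := by
    rw [hCd]
    exact dd_norm_le s t₁ t₂ ζ₁ ζ₂ h0 h1 h2
  have hd0 : dd s t₁ t₂ ζ₁ ζ₂ 0 = 0 := by simp [dd]
  -- the approximation property
  have happ : ∀ R : ℝ, r₀ < R → R < 1 → ∀ δ : ℝ, 0 < δ → ∃ q : Polynomial ℂ, ∀ z : ℂ, ‖z‖ = R →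
      ‖q.eval (Y z / z) - (s + t₁ * ((Y ζ₁ / ζ₁ - Y z / z)⁻¹ + (Y ζ₁ / ζ₁ + Y z / z)⁻¹) +
        t₂ * ((Y ζ₂ / ζ₂ - Y z / z)⁻¹ + (Y ζ₂ / ζ₂ + Y z / z)⁻¹))‖ ≤ δ := by
    intro R hR hR1 δ hδ
    obtain ⟨η, hη⟩ : ∃ η, η = δ / (2 * (‖t₁‖ + ‖t₂‖ + 1)) := ⟨_, rfl⟩
    have hη0 : 0 < η := by rw [hη]; positivity
    obtain ⟨q₁, hq₁⟩ := hC2 Y hY R hR1 ζ₁ hζ₁ (h1.trans_lt hR) η hη0
    obtain ⟨q₂, hq₂⟩ := hC2 Y hY R hR1 ζ₂ hζ₂ (h2.trans_lt hR) η hη0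
    obtain ⟨p₁, hp₁⟩ := hC2 Y hY R hR1 (-ζ₁) (neg_ne_zero.2 hζ₁)
      (by rw [norm_neg]; exact h1.trans_lt hR) η hη0
    obtain ⟨p₂, hp₂⟩ := hC2 Y hY R hR1 (-ζ₂) (neg_ne_zero.2 hζ₂)
      (by rw [norm_neg]; exact h2.trans_lt hR) η hη0
    refine ⟨Polynomial.C s + Polynomial.C t₁ * (q₁ - p₁) + Polynomial.C t₂ * (q₂ - p₂), ?_⟩
    intro z hz
    have a1 := hq₁ z hz
    have a2 := hq₂ z hz
    have b1 := hp₁ z hz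
    have b2 := hp₂ z hz
    have m1 : Y (-ζ₁) = Y ζ₁ := hY.even ζ₁ (by rw [mem_ball_zero_iff]; exact hn₁)
    have m2 : Y (-ζ₂) = Y ζ₂ := hY.even ζ₂ (by rw [mem_ball_zero_iff]; exact hn₂)
    have n1 : (Y (-ζ₁) / -ζ₁ - Y z / z)⁻¹ = -(Y ζ₁ / ζ₁ + Y z / z)⁻¹ := by
      rw [m1, div_neg, ← neg_add', ← neg_inv]
    have n2 : (Y (-ζ₂) / -ζ₂ - Y z / z)⁻¹ = -(Y ζ₂ / ζ₂ + Y z / z)⁻¹ := by
      rw [m2, div_neg, ← neg_add', ← neg_inv]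
    rw [n1] at b1
    rw [n2] at b2
    simp only [Polynomial.eval_add, Polynomial.eval_mul, Polynomial.eval_C, Polynomial.eval_sub]
    have e : s + t₁ * (q₁.eval (Y z / z) - p₁.eval (Y z / z)) +
        t₂ * (q₂.eval (Y z / z) - p₂.eval (Y z / z)) -
        (s + t₁ * ((Y ζ₁ / ζ₁ - Y z / z)⁻¹ + (Y ζ₁ / ζ₁ + Y z / z)⁻¹) +
        t₂ * ((Y ζ₂ / ζ₂ - Y z / z)⁻¹ + (Y ζ₂ / ζ₂ + Y z / z)⁻¹)) =
        t₁ * ((q₁.eval (Y z / z) - (Y ζ₁ / ζ₁ - Y z / z)⁻¹) -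
          (p₁.eval (Y z / z) - -(Y ζ₁ / ζ₁ + Y z / z)⁻¹)) +
        t₂ * ((q₂.eval (Y z / z) - (Y ζ₂ / ζ₂ - Y z / z)⁻¹) -
          (p₂.eval (Y z / z) - -(Y ζ₂ / ζ₂ + Y z / z)⁻¹)) := by ring
    rw [e]
    have f1 : ‖t₁ * ((q₁.eval (Y z / z) - (Y ζ₁ / ζ₁ - Y z / z)⁻¹) -
          (p₁.eval (Y z / z) - -(Y ζ₁ / ζ₁ + Y z / z)⁻¹))‖ ≤ ‖t₁‖ * (η + η) := by
      rw [norm_mul]
      exact mul_le_mul_of_nonneg_left ((norm_sub_le _ _).trans (add_le_add a1 b1)) (norm_nonneg _)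
    have f2 : ‖t₂ * ((q₂.eval (Y z / z) - (Y ζ₂ / ζ₂ - Y z / z)⁻¹) -
          (p₂.eval (Y z / z) - -(Y ζ₂ / ζ₂ + Y z / z)⁻¹))‖ ≤ ‖t₂‖ * (η + η) := by
      rw [norm_mul]
      exact mul_le_mul_of_nonneg_left ((norm_sub_le _ _).trans (add_le_add a2 b2)) (norm_nonneg _)
    refine (norm_add_le _ _).trans ((add_le_add f1 f2).trans ?_)
    have hpos : 0 < 2 * (‖t₁‖ + ‖t₂‖ + 1) := by positivity
    have hη' : η * (2 * (‖t₁‖ + ‖t₂‖ + 1)) = δ := by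
      rw [hη]
      exact div_mul_cancel₀ _ hpos.ne'
    nlinarith
  -- the derivative
  have hder : ∀ R : ℝ, r₀ < R → R < 1 → ∀ z : ℂ, ‖z‖ = R →
      HasDerivAt (fun z => (s * dslope Y 0 z + t₁ * A₁ z + t₂ * A₂ z) +
        ∑' k : ℕ, dd s t₁ t₂ ζ₁ ζ₂ k * (z⁻¹) ^ k)
        ((s + t₁ * ((Y ζ₁ / ζ₁ - Y z / z)⁻¹ + (Y ζ₁ / ζ₁ + Y z / z)⁻¹) +
        t₂ * ((Y ζ₂ / ζ₂ - Y z / z)⁻¹ + (Y ζ₂ / ζ₂ + Y z / z)⁻¹)) *
          deriv (fun z => Y z / z) z) z := by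
    intro R hR hR1 z hz
    have hz0 : z ≠ 0 := by
      rw [← norm_pos_iff, hz]
      linarith
    have hzb : z ∈ ball (0 : ℂ) 1 := by rw [mem_ball_zero_iff, hz]; exact hR1
    have hGd : HasDerivAt (fun z => Y z / z) (deriv (fun z => Y z / z) z) z := by
      apply DifferentiableAt.hasDerivAt
      exact (hY.diff.differentiableAt (isOpen_ball.mem_nhds hzb)).div differentiableAt_id hz0
    have k1 := hC5a Y hY ζ₁ A₁ hζ₁ hA₁ z (by rw [hz]; exact h1.trans_lt hR) (by rw [hz]; exact hR1)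
    have k2 := hC5a Y hY ζ₂ A₂ hζ₂ hA₂ z (by rw [hz]; exact h2.trans_lt hR) (by rw [hz]; exact hR1)
    have k3 := ((hGd.const_mul s).add (k1.const_mul t₁)).add (k2.const_mul t₂)
    refine HasDerivAt.congr_deriv (k3.congr_of_eventuallyEq ?_) (by ring)
    · have hop : {w : ℂ | r₀ < ‖w‖} ∈ 𝓝 z := by
        apply (isOpen_lt continuous_const continuous_norm).mem_nhds
        show r₀ < ‖z‖
        rw [hz]
        exact hR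
      filter_upwards [hop] with w hw
      have hw' : r₀ < ‖w‖ := hw
      have hw0 : w ≠ 0 := by
        rw [← norm_pos_iff]
        linarith
      rw [tsum_dd s t₁ t₂ ζ₁ ζ₂ w (h1.trans_lt hw') (h2.trans_lt hw')]
      have e1 : dslope Y 0 w = (Y w - 1) / w := by
        rw [dslope_of_ne _ hw0, slope_def_field, sub_zero, hY.one]
      simp only [Pi.add_apply]
      rw [e1]
      unfold ell
      field_simp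
      ring
  -- the inequality for fixed R
  have key : ∀ R : ℝ, r₀ < R → R < 1 → ∑ k ∈ Finset.range N, (k : ℝ) * ‖c k‖ ^ 2 * R ^ (2 * k) ≤
      ∑' k : ℕ, (k : ℝ) * ‖dd s t₁ t₂ ζ₁ ζ₂ k‖ ^ 2 * (R⁻¹) ^ (2 * k) := by
    intro R hR hR1
    have hR0 : 0 < R := h0.trans hR
    obtain ⟨g1, g2, g3⟩ := hC4 R r₀ C c (dd s t₁ t₂ ζ₁ ζ₂)
      (fun z => s * dslope Y 0 z + t₁ * A₁ z + t₂ * A₂ z) h0 hR hR1 hd0 hc hd
    have g4 := hC3 Y hY R hR0 hR1 _ _ (happ R hR hR1) (hder R hR hR1)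
    rw [g3] at g4
    have hpi : 0 < 2 * Real.pi := by positivity
    have g5 : ∑' k : ℕ, (k : ℝ) * ‖c k‖ ^ 2 * R ^ (2 * k) ≤
        ∑' k : ℕ, (k : ℝ) * ‖dd s t₁ t₂ ζ₁ ζ₂ k‖ ^ 2 * (R⁻¹) ^ (2 * k) := by
      by_contra hcon
      push Not at hcon
      have := mul_pos hpi (sub_pos.2 hcon)
      linarith
    refine le_trans ?_ g5
    exact g1.sum_le_tsum _ (fun k _ => by positivity)
  -- the limit
  have hL : Tendsto (fun R : ℝ => ∑ k ∈ Finset.range N, (k : ℝ) * ‖c k‖ ^ 2 * R ^ (2 * k))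
      (𝓝[<] 1) (𝓝 (∑ k ∈ Finset.range N, (k : ℝ) * ‖c k‖ ^ 2)) := by
    have hcont : Continuous (fun R : ℝ => ∑ k ∈ Finset.range N, (k : ℝ) * ‖c k‖ ^ 2 * R ^ (2 * k)) := by
      fun_prop
    have := (hcont.tendsto 1).mono_left (nhdsWithin_le_nhds (s := Iio 1))
    simpa using this
  obtain ⟨r₁, hr₁⟩ : ∃ r₁, r₁ = (1 + r₀) / 2 := ⟨_, rfl⟩
  have hr01 : r₀ < r₁ := by rw [hr₁]; linarith
  have hr11 : r₁ < 1 := by rw [hr₁]; linarith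
  have hr10 : 0 < r₁ := h0.trans hr01
  have hIoo : Ioo r₁ 1 ∈ 𝓝[<] (1 : ℝ) := Ioo_mem_nhdsLT hr11
  have hRt : Tendsto (fun R : ℝ => ∑' k : ℕ, (k : ℝ) * ‖dd s t₁ t₂ ζ₁ ζ₂ k‖ ^ 2 * (R⁻¹) ^ (2 * k))
      (𝓝[<] 1) (𝓝 (∑' k : ℕ, (k : ℝ) * ‖dd s t₁ t₂ ζ₁ ζ₂ k‖ ^ 2)) := by
    obtain ⟨x, hx⟩ : ∃ x, x = (r₀ / r₁) ^ 2 := ⟨_, rfl⟩
    have hx0 : 0 ≤ x := by rw [hx]; positivity
    have hx1 : x < 1 := by
      rw [hx]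
      have : r₀ / r₁ < 1 := (div_lt_one hr10).2 hr01
      exact pow_lt_one₀ (by positivity) this two_ne_zero
    have hsum : Summable fun k : ℕ => C ^ 2 * ((k : ℝ) * x ^ k) := by
      have := summable_pow_mul_geometric_of_norm_lt_one 1 (r := x)
        (by rw [Real.norm_of_nonneg hx0]; exact hx1)
      simp only [pow_one] at this
      exact this.mul_left _
    apply tendsto_tsum_of_dominated_convergence hsum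
    · intro k
      have hc1 : ContinuousAt (fun R : ℝ => (k : ℝ) * ‖dd s t₁ t₂ ζ₁ ζ₂ k‖ ^ 2 * (R⁻¹) ^ (2 * k)) 1 := by
        apply ContinuousAt.mul continuousAt_const
        exact (continuousAt_inv₀ one_ne_zero).pow _
      have := hc1.tendsto.mono_left (nhdsWithin_le_nhds (s := Iio 1))
      simpa using this
    · filter_upwards [hIoo] with R hR k
      have hR0 : 0 < R := hr10.trans hR.1
      rw [Real.norm_of_nonneg (by positivity)]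
      have a1 : ‖dd s t₁ t₂ ζ₁ ζ₂ k‖ ^ 2 ≤ (C * r₀ ^ k) ^ 2 :=
        pow_le_pow_left₀ (norm_nonneg _) (hd k) 2
      have a2 : (R⁻¹) ^ (2 * k) ≤ (r₁⁻¹) ^ (2 * k) := by
        apply pow_le_pow_left₀ (by positivity)
        exact inv_anti₀ hr10 hR.1.le
      calc (k : ℝ) * ‖dd s t₁ t₂ ζ₁ ζ₂ k‖ ^ 2 * (R⁻¹) ^ (2 * k)
          ≤ (k : ℝ) * (C * r₀ ^ k) ^ 2 * (r₁⁻¹) ^ (2 * k) := by gcongr
        _ = C ^ 2 * ((k : ℝ) * x ^ k) := by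
            rw [hx, div_eq_mul_inv, ← pow_mul, mul_pow, mul_pow, ← pow_mul, mul_comm k 2]
            ring
  refine le_of_tendsto_of_tendsto hL hRt ?_
  filter_upwards [hIoo] with R hR
  exact key R (hr01.trans hR.1) hR.2

end Pool.Agent.H33R3.Bom
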