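import Pool.Agent.H33R3.Bom.Stmts
import Pool.Agent.H33R3.Bom.TC5
import Pool.Agent.H33R3.Bom.LB
import Pool.Agent.H788R3.Bom.TA
import Pool.Agent.H788R3.Bom.TB
import Pool.Agent.H151.BomD
import Pool.Agent.H757.Bom.C1
import Pool.Agent.H75R3.Bom.C2
import Pool.Agent.H643R3.Bom.C3
import Pool.Agent.H643R3.Bom.C4
import Pool.Agent.H266R3.Bom.TaskC5a
import Pool.Agent.H5R3.BomE1
import Pool.Agent.H245R3.BomE2
import Pool.Agent.H805R3.BomF
import Pool.Agent.H6R3.Bom.TG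
import Pool.Agent.H121R3.Bom.H1
import Pool.Agent.H121R3.Bom.H2
import Pool.Agent.H33R3.Bom.I1
import Pool.Agent.H133R3.Bom.I2

set_option autoImplicit false

/-! Assembly of the local coefficient inequalities. -/

namespace Pool.Agent.H33R3.Bom

theorem goal : Goal :=
  assemble Pool.Agent.H788R3.Bom.taskA Pool.Agent.H788R3.Bom.taskB Pool.Agent.H757.Bom.taskC1
    taskC2 Pool.Agent.H643R3.BomC3.taskC3 Pool.Agent.H643R3.BomC4.taskC4
    Pool.Agent.H266R3.Bom.taskC5a taskC5 Pool.Agent.H151.BomD.taskD Pool.Agent.H5R3.BomE1.e1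
    Pool.Agent.H245R3.BomE2.taskE2 Pool.Agent.H805R3.BomF.taskF Pool.Agent.H6R3.Bom.taskG
    Pool.Agent.H121R3.Bom.taskH1 Pool.Agent.H121R3.Bom.taskH2 taskI1
    Pool.Agent.H133R3.Bom.taskI2

end Pool.Agent.H33R3.Bom
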