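import Pool.Agent.H33R3.Bom.Stmts2
import Pool.Agent.H33R3.Bom.I1

set_option autoImplicit false

namespace Pool.Agent.H33R3.Bom.M13

open Complex Metric Set Filter Topology Pool.Agent.H33R3.Bom Pool.Agent.H33R3.Bom.I1

lemma rad (n : ℕ) (hn : 2 ≤ n) : ∃ r D : ℝ, D = 2 * n ∧ 0 < r ∧ r < 1 ∧ 1 - r = 1 / D ∧
    1 / D ≤ 1 - r ^ 2 ∧ 1 / 4 ≤ r ^ (2 * n) ∧ 4 ≤ D ∧ 3 / 4 ≤ r := by
  obtain ⟨r, D, hD, hr0, hr1, hrD, hrD2, -⟩ := radius n hn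
  have hn' : (2 : ℝ) ≤ n := by exact_mod_cast hn
  have hD4 : 4 ≤ D := by rw [hD]; linarith
  have hD0 : 0 < D := by linarith
  have hDi : 1 / D ≤ 1 / 4 := one_div_le_one_div_of_le (by norm_num) hD4
  have hr4 : 1 / 4 ≤ r ^ (2 * n) := by
    have h2 : (1 : ℝ) / 2 ≤ r ^ n := by
      have := one_add_mul_le_pow (a := -(1 / D)) (by linarith) n
      have h3 : 1 + (n : ℝ) * -(1 / D) = 1 / 2 := by
        rw [hD]; field_simp; ring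
      rw [h3] at this
      have h5 : 1 + -(1 / D) = r := by rw [← hrD]; ring
      rwa [h5] at this
    have h5 : r ^ (2 * n) = (r ^ n) ^ 2 := by rw [mul_comm 2 n, pow_mul]
    rw [h5]
    nlinarith
  exact ⟨r, D, hD, hr0, hr1, hrD, hrD2, hr4, hD4, by linarith⟩

theorem taskM1 : TaskM1 := by
  intro hL hU Y hY n hn
  obtain ⟨r, D, hD, hr0, hr1, hrD, hrD2, hr4, hD4, hr34⟩ := rad n hn
  have hD0 : 0 < D := by linarith
  have hn' : (2 : ℝ) ≤ n := by exact_mod_cast hn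
  have hzb : ∀ z : ℂ, ‖z‖ = r → z ∈ ball (0 : ℂ) 1 := by
    intro z hz
    simpa [hz] using hr1
  set l : ℝ := Real.log (2 * n) with hl
  have hl0 : 0 ≤ l := Real.log_nonneg (by linarith)
  have hlog : Real.log (1 - r) = -l := by
    rw [hrD, one_div, Real.log_inv, hD]
  set ρ : ℝ := (1 + r) / 2 with hρ
  have hUz : ∀ z : ℂ, ‖z‖ = r → ‖UU Y z‖ * ‖z ^ 2 + (ρ : ℂ) ^ 2‖ ≤ 172 * ep Y * (2 + l) * D := by
    intro z hz
    have h1 := hU Y hY z (hzb z hz) (by rw [hz]; linarith)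
    rw [hz, hlog, hrD, mul_one_div, div_le_iff₀ hD0] at h1
    rw [hρ]
    linarith
  have hep0 : 0 ≤ ep Y := by
    have h1 := hUz (r : ℂ) (by simp [abs_of_pos hr0])
    have h2 : 0 ≤ 172 * ep Y * (2 + l) * D := le_trans (by positivity) h1
    by_contra hcon
    push Not at hcon
    have h3 : 0 < (2 + l) * D := by positivity
    nlinarith
  set M : ℝ := 172 * ep Y * (2 + l) with hM
  have hM0 : 0 ≤ M := by positivity
  have hki : DifferentiableOn ℂ (fun z : ℂ => (1 - z ^ 2)⁻¹) (ball 0 1) :=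
    (show DifferentiableOn ℂ (fun z : ℂ => 1 - z ^ 2) (ball 0 1) by fun_prop).inv
      fun z hz => ker_ne hz
  have hUd : DifferentiableOn ℂ (UU Y) (ball 0 1) := (hh_diff Y hY).add (conj_diff (hh_diff Y hY))
  have hdiff : DifferentiableOn ℂ (fun z => z ^ 3 * UU Y z * ((1 - z ^ 2)⁻¹) ^ 3) (ball 0 1) :=
    ((differentiableOn_id.pow 3).mul hUd).mul (hki.pow 3)
  have hbound : ∀ z : ℂ, ‖z‖ = r → ‖(fun z => z ^ 3 * UU Y z * ((1 - z ^ 2)⁻¹) ^ 3) z‖ ≤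
      (9 / 4 * M * D ^ 2) / ‖1 - z ^ 2‖ ^ 2 + 0 := by
    intro z hz
    have hT : 0 < ‖1 - z ^ 2‖ := norm_pos_iff.2 (ker_ne (hzb z hz))
    have hTl : 1 / D ≤ ‖1 - z ^ 2‖ := by
      have h1 : ‖(1 : ℂ)‖ - ‖z ^ 2‖ ≤ ‖1 - z ^ 2‖ := norm_sub_norm_le _ _
      rw [norm_one, norm_pow, hz] at h1
      linarith
    have hρn : ‖(ρ : ℂ) ^ 2‖ = ρ ^ 2 := by
      rw [norm_pow, Complex.norm_real, Real.norm_eq_abs, sq_abs]
    have hSl : 4 / 5 * (1 / D) ≤ ‖z ^ 2 + (ρ : ℂ) ^ 2‖ := by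
      have h1 : ‖(ρ : ℂ) ^ 2‖ - ‖z ^ 2‖ ≤ ‖z ^ 2 + (ρ : ℂ) ^ 2‖ := by
        have := norm_sub_norm_le ((ρ : ℂ) ^ 2) (-(z ^ 2))
        rw [norm_neg, sub_neg_eq_add, add_comm ((ρ : ℂ) ^ 2)] at this
        exact this
      rw [hρn, norm_pow, hz] at h1
      have h2 : 4 / 5 * (1 / D) ≤ ρ ^ 2 - r ^ 2 := by
        rw [← hrD, hρ]
        nlinarith
      linarith
    have hsum : 1 ≤ ‖1 - z ^ 2‖ + ‖z ^ 2 + (ρ : ℂ) ^ 2‖ := by
      have h1 := norm_add_le (1 - z ^ 2) (z ^ 2 + (ρ : ℂ) ^ 2)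
      have h2 : (1 - z ^ 2) + (z ^ 2 + (ρ : ℂ) ^ 2) = ((1 + ρ ^ 2 : ℝ) : ℂ) := by push_cast; ring
      rw [h2, Complex.norm_real, Real.norm_eq_abs, abs_of_pos (by positivity)] at h1
      nlinarith [sq_nonneg ρ]
    set T := ‖1 - z ^ 2‖ with hTdef
    set S := ‖z ^ 2 + (ρ : ℂ) ^ 2‖ with hSdef
    set U := ‖UU Y z‖ with hUdef
    have hU0 : 0 ≤ U := norm_nonneg _
    have hS0 : 0 < S := lt_of_lt_of_le (by positivity) hSl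
    have hDT : 1 ≤ D * T := by
      rw [div_le_iff₀ hD0] at hTl; linarith
    have hDS : 4 / 5 ≤ D * S := by
      have : 4 / 5 / D ≤ S := by rw [div_eq_mul_one_div]; exact hSl
      rw [div_le_iff₀ hD0] at this; linarith
    have h1 : 1 ≤ 9 / 4 * (D * S * T) := by
      have e1 : S ≤ D * S * T := by nlinarith
      have e2 : 4 / 5 * T ≤ D * S * T := by nlinarith
      linarith
    have h2 : U ≤ 9 / 4 * M * D ^ 2 * T := by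
      calc U ≤ U * (9 / 4 * (D * S * T)) := by nlinarith
        _ = 9 / 4 * D * T * (U * S) := by ring
        _ ≤ 9 / 4 * D * T * (M * D) := by
          apply mul_le_mul_of_nonneg_left (hUz z hz) (by positivity)
        _ = _ := by ring
    have hz3 : ‖z‖ ^ 3 ≤ 1 := pow_le_one₀ (norm_nonneg _) (by rw [hz]; exact hr1.le)
    change ‖z ^ 3 * UU Y z * ((1 - z ^ 2)⁻¹) ^ 3‖ ≤ _
    rw [add_zero, norm_mul, norm_mul, norm_pow, norm_pow, norm_inv, ← hTdef, ← hUdef,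
      le_div_iff₀ (by positivity)]
    calc ‖z‖ ^ 3 * U * T⁻¹ ^ 3 * T ^ 2 = ‖z‖ ^ 3 * (U * T⁻¹) := by field_simp
      _ ≤ 1 * (9 / 4 * M * D ^ 2) := by
        apply mul_le_mul hz3 _ (by positivity) (by norm_num)
        rw [← div_eq_mul_inv, div_le_iff₀ hT]
        exact h2
      _ = _ := by ring
  have key := hL _ r _ 0 hdiff hr0 hr1 hbound (2 * n)
  rw [add_zero] at key
  have h4 : 1 / D ≤ 1 - r ^ 4 := by
    have : r ^ 4 ≤ r ^ 2 := pow_le_pow_of_le_one hr0.le hr1.le (by norm_num)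
    linarith
  have h4' : 0 < 1 - r ^ 4 := lt_of_lt_of_le (by positivity) h4
  have h5 : 9 / 4 * M * D ^ 2 / (1 - r ^ 4) ≤ 9 / 4 * M * D ^ 3 := by
    rw [div_le_iff₀ h4']
    have h6 : 1 ≤ D * (1 - r ^ 4) := by
      rw [div_le_iff₀ hD0] at h4
      linarith
    have h7 : 0 ≤ 9 / 4 * M * D ^ 2 := by positivity
    nlinarith
  have h8 := key.trans h5
  set c := ‖coeff (2 * n) fun z => z ^ 3 * UU Y z * ((1 - z ^ 2)⁻¹) ^ 3‖ with hc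
  have hc0 : 0 ≤ c := norm_nonneg _
  have h9 : c * (1 / 4) ≤ c * r ^ (2 * n) := mul_le_mul_of_nonneg_left hr4 hc0
  have h10 : c ≤ 9 * M * D ^ 3 := by linarith
  rw [hD, hM] at h10
  refine h10.trans ?_
  have h11 : 0 ≤ (n : ℝ) ^ 3 * (2 + l) * ep Y := by positivity
  nlinarith

theorem taskM3 : TaskM3 := by
  intro hL hHB hYB Y hY n hn
  obtain ⟨hep0, hhb⟩ := hHB Y hY
  obtain ⟨r, D, hD, hr0, hr1, hrD, hrD2, hr4, hD4, hr34⟩ := rad n hn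
  have hD0 : 0 < D := by linarith
  have hn' : (2 : ℝ) ≤ n := by exact_mod_cast hn
  have hzb : ∀ z : ℂ, ‖z‖ = r → z ∈ ball (0 : ℂ) 1 := by
    intro z hz
    simpa [hz] using hr1
  have hki : DifferentiableOn ℂ (fun z : ℂ => (1 - z ^ 2)⁻¹) (ball 0 1) :=
    (show DifferentiableOn ℂ (fun z : ℂ => 1 - z ^ 2) (ball 0 1) by fun_prop).inv
      fun z hz => ker_ne hz
  have hYi : DifferentiableOn ℂ (fun z : ℂ => (Y z)⁻¹) (ball 0 1) :=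
    hY.diff.inv fun z hz => hY.ne z hz
  have hdiff : DifferentiableOn ℂ (fun z => z ^ 3 * hh Y z *
      ((1 - z ^ 2)⁻¹ * ((Y z)⁻¹) ^ 2 + ((1 - z ^ 2)⁻¹) ^ 2 * (Y z)⁻¹)) (ball 0 1) :=
    ((differentiableOn_id.pow 3).mul (hh_diff Y hY)).mul
      ((hki.mul (hYi.pow 2)).add ((hki.pow 2).mul hYi))
  have hLa : La r ≤ Real.log (2 * n) := by
    rw [La, ← Real.log_inv]
    apply Real.log_le_log (by
      have : 0 < 1 - r ^ 2 := by nlinarith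
      positivity)
    rw [← hD, inv_le_comm₀ (by nlinarith) hD0, ← one_div]
    exact hrD2
  have hLa0 : 0 ≤ La r := by
    rw [La, neg_nonneg]
    apply Real.log_nonpos <;> nlinarith
  set l : ℝ := Real.log (2 * n) with hl
  have hl0 : 0 ≤ l := hLa0.trans hLa
  set s : ℝ := Real.sqrt (ep Y * l) with hs
  have hs0 : 0 ≤ s := Real.sqrt_nonneg _
  have hs2 : s ^ 2 = ep Y * l := Real.sq_sqrt (mul_nonneg hep0 hl0)
  set t : ℝ := Real.sqrt D with ht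
  have ht0 : 0 < t := Real.sqrt_pos.2 hD0
  have ht2 : t ^ 2 = D := Real.sq_sqrt hD0.le
  have ht2' : 2 ≤ t := by nlinarith
  have hbound : ∀ z : ℂ, ‖z‖ = r → ‖(fun z => z ^ 3 * hh Y z *
      ((1 - z ^ 2)⁻¹ * ((Y z)⁻¹) ^ 2 + ((1 - z ^ 2)⁻¹) ^ 2 * (Y z)⁻¹)) z‖ ≤
      (s * (t ^ 3 / 2 + t ^ 2)) / ‖1 - z ^ 2‖ ^ 2 + s * t ^ 5 / 2 := by
    intro z hz
    have hzz := hzb z hz
    have hT : 0 < ‖1 - z ^ 2‖ := norm_pos_iff.2 (ker_ne hzz)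
    have hYl : 1 / D ≤ ‖Y z‖ := by
      have h1 := hYB Y hY z hzz
      rw [hz] at h1
      linarith
    have hYn : 0 < ‖Y z‖ := lt_of_lt_of_le (by positivity) hYl
    have hYi' : ‖(Y z)⁻¹‖ ≤ D := by
      rw [norm_inv, inv_le_comm₀ hYn hD0, ← one_div]; exact hYl
    have hh2 : ‖hh Y z‖ ≤ s := by
      have h1 := hhb z hzz
      rw [hz] at h1
      have h2 := h1.trans (mul_le_mul_of_nonneg_left hLa hep0)
      exact Real.le_sqrt_of_sq_le h2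
    have hz3 : ‖z‖ ^ 3 ≤ 1 := pow_le_one₀ (norm_nonneg _) (by rw [hz]; exact hr1.le)
    set T := ‖1 - z ^ 2‖ with hTdef
    have e2 : ‖(1 - z ^ 2)⁻¹ * ((Y z)⁻¹) ^ 2 + ((1 - z ^ 2)⁻¹) ^ 2 * (Y z)⁻¹‖ ≤
        t ^ 4 * T⁻¹ + t ^ 2 * T⁻¹ ^ 2 := by
      refine (norm_add_le _ _).trans ?_
      rw [norm_mul, norm_mul, norm_pow, norm_pow, norm_inv (1 - z ^ 2), ← hTdef]
      have h4 : ‖(Y z)⁻¹‖ ^ 2 ≤ D ^ 2 := pow_le_pow_left₀ (norm_nonneg _) hYi' 2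
      have h5 : T⁻¹ * ‖(Y z)⁻¹‖ ^ 2 ≤ T⁻¹ * D ^ 2 :=
        mul_le_mul_of_nonneg_left h4 (by positivity)
      have h6 : T⁻¹ ^ 2 * ‖(Y z)⁻¹‖ ≤ T⁻¹ ^ 2 * D := mul_le_mul_of_nonneg_left hYi' (by positivity)
      have h7 : T⁻¹ * D ^ 2 = t ^ 4 * T⁻¹ := by rw [← ht2]; ring
      have h8 : T⁻¹ ^ 2 * D = t ^ 2 * T⁻¹ ^ 2 := by rw [← ht2]; ring
      linarith
    have e3 : t ^ 4 * T⁻¹ ≤ t ^ 3 / 2 * T⁻¹ ^ 2 + t ^ 5 / 2 := by
      have h1 : 0 ≤ t ^ 3 * (T⁻¹ - t) ^ 2 := by positivity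
      nlinarith
    have e4 : ‖z‖ ^ 3 * ‖hh Y z‖ ≤ s := by
      calc ‖z‖ ^ 3 * ‖hh Y z‖ ≤ 1 * s := mul_le_mul hz3 hh2 (norm_nonneg _) (by norm_num)
        _ = s := one_mul _
    change ‖z ^ 3 * hh Y z * ((1 - z ^ 2)⁻¹ * ((Y z)⁻¹) ^ 2 +
      ((1 - z ^ 2)⁻¹) ^ 2 * (Y z)⁻¹)‖ ≤ _
    rw [norm_mul, norm_mul, norm_pow]
    calc ‖z‖ ^ 3 * ‖hh Y z‖ * ‖(1 - z ^ 2)⁻¹ * ((Y z)⁻¹) ^ 2 + ((1 - z ^ 2)⁻¹) ^ 2 * (Y z)⁻¹‖
        ≤ s * (t ^ 4 * T⁻¹ + t ^ 2 * T⁻¹ ^ 2) := mul_le_mul e4 e2 (norm_nonneg _) hs0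
      _ ≤ s * ((t ^ 3 / 2 * T⁻¹ ^ 2 + t ^ 5 / 2) + t ^ 2 * T⁻¹ ^ 2) :=
          mul_le_mul_of_nonneg_left (by linarith) hs0
      _ = (s * (t ^ 3 / 2 + t ^ 2)) / T ^ 2 + s * t ^ 5 / 2 := by
          field_simp
          ring
  have key := hL _ r _ _ hdiff hr0 hr1 hbound (2 * n)
  have h4 : 1 / D ≤ 1 - r ^ 4 := by
    have : r ^ 4 ≤ r ^ 2 := pow_le_pow_of_le_one hr0.le hr1.le (by norm_num)
    linarith
  have h4' : 0 < 1 - r ^ 4 := lt_of_lt_of_le (by positivity) h4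
  have h5 : s * (t ^ 3 / 2 + t ^ 2) / (1 - r ^ 4) ≤ s * (t ^ 3 / 2 + t ^ 2) * D := by
    rw [div_le_iff₀ h4']
    have h6 : 1 ≤ D * (1 - r ^ 4) := by
      rw [div_le_iff₀ hD0] at h4
      linarith
    have h7 : 0 ≤ s * (t ^ 3 / 2 + t ^ 2) := by positivity
    nlinarith
  set c := ‖coeff (2 * n) fun z => z ^ 3 * hh Y z *
      ((1 - z ^ 2)⁻¹ * ((Y z)⁻¹) ^ 2 + ((1 - z ^ 2)⁻¹) ^ 2 * (Y z)⁻¹)‖ with hc
  have hc0 : 0 ≤ c := norm_nonneg _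
  have h9 : c * (1 / 4) ≤ c * r ^ (2 * n) := mul_le_mul_of_nonneg_left hr4 hc0
  have h10 : c ≤ 6 * (s * t ^ 5) := by
    have h11 : s * (t ^ 3 / 2 + t ^ 2) * D = s * t ^ 5 / 2 + s * t ^ 4 := by rw [← ht2]; ring
    have h12 : s * t ^ 4 ≤ s * t ^ 5 / 2 := by
      have : t ^ 4 * 2 ≤ t ^ 5 := by
        have : 0 ≤ t ^ 4 := by positivity
        nlinarith
      nlinarith
    linarith
  have h13 : c ^ 2 ≤ (6 * (s * t ^ 5)) ^ 2 := pow_le_pow_left₀ hc0 h10 2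
  have h14 : (6 * (s * t ^ 5)) ^ 2 = 1152 * ((n : ℝ) ^ 5 * (ep Y * l)) := by
    have h15 : (6 * (s * t ^ 5)) ^ 2 = 36 * s ^ 2 * (t ^ 2) ^ 5 := by ring
    rw [h15, hs2, ht2, hD]; ring
  rw [h14] at h13
  refine h13.trans ?_
  have h16 : 0 ≤ (n : ℝ) ^ 5 * (ep Y * l) := by
    have := mul_nonneg hep0 hl0
    positivity
  nlinarith

end Pool.Agent.H33R3.Bom.M13
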