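import Pool.Agent.H33R3.Bom.Stmts2
import Pool.Agent.H33R3.Bom.TC5
import Pool.Agent.H33R3.Bom.LB
import Pool.Agent.H788R3.Bom.TA
import Pool.Agent.H151.BomD
import Pool.Agent.H757.Bom.C1
import Pool.Agent.H75R3.Bom.C2
import Pool.Agent.H643R3.Bom.C3
import Pool.Agent.H643R3.Bom.C4
import Pool.Agent.H266R3.Bom.TaskC5a
import Pool.Agent.H5R3.BomE1
import Pool.Agent.H245R3.BomE2
import Pool.Agent.H121R3.Bom.H1
import Pool.Agent.H121R3.Bom.H2
import Pool.Agent.H33R3.Bom.HB0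
import Pool.Agent.H33R3.Bom.M13
import Pool.Agent.H703R3.Bom2.TaskF2
import Pool.Agent.H827R3.Bom2.G2
import Pool.Agent.H779R5.Bom2.TaskL
import Pool.Agent.H451R6.Bom2.M2
import Pool.Agent.H886R3.Bom2.TaskM4
import Pool.Agent.H719R4.Bom2.N2

set_option autoImplicit false

/-! Assembly of the nearly sharp coefficient inequalities. -/

namespace Pool.Agent.H33R3.Bom

theorem goal2 : Goal2 :=
  assemble2 Pool.Agent.H788R3.Bom.taskA Pool.Agent.H757.Bom.taskC1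
    taskC2 Pool.Agent.H643R3.BomC3.taskC3 Pool.Agent.H643R3.BomC4.taskC4
    Pool.Agent.H266R3.Bom.taskC5a taskC5 Pool.Agent.H151.BomD.taskD Pool.Agent.H5R3.BomE1.e1
    Pool.Agent.H245R3.BomE2.taskE2
    Pool.Agent.H121R3.Bom.taskH1 Pool.Agent.H121R3.Bom.taskH2
    HB0.hBound Pool.Agent.H703R3.Bom2.taskF2 Pool.Agent.H827R3.Bom2.taskG2 taskL
    M13.taskM1 Pool.Agent.H451R6.Bom2.taskM2 M13.taskM3 Pool.Agent.H886R3.Bom2.taskM4
    Pool.Agent.H719R4.Bom2.taskN2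

end Pool.Agent.H33R3.Bom
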