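import Pool.Agent.H33R3.Bom.Stmts3

set_option autoImplicit false

namespace Pool.Agent.H33R3.Bom.P0

open Complex Metric Set Filter Topology Pool.Agent.H33R3.Bom

lemma num {ε A P R R2 μ η qr qi mr mi sn : ℝ} (hε : 0 < ε) (hA : 1 ≤ A) (hX : ε * A ≤ 1 / 8)
    (hP0 : 0 < P) (hP1 : P < 1) (hR : |R| ≤ A) (hR2 : |R2| ≤ A)
    (hqi : |qi - η * R2| ≤ A * ((1 - P) + η ^ 2)) (hqr : |qr - R| ≤ A * ((1 - P) + η ^ 2))
    (hmr : |mr - μ| ≤ A * ((1 - P) + |η|)) (hqrA : |qr| ≤ A) (hqiA : |qi| ≤ A)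
    (hmrA : |mr| ≤ A) (hmiA : |mi| ≤ A)
    (h1 : (1 - (-(ε * qi) + ε ^ 2 * mr)) ^ 2 + (ε * qr + ε ^ 2 * mi) ^ 2 = 1 / P ^ 2)
    (h2 : sn = P * (ε * qr + ε ^ 2 * mi)) (hη : |η| ≤ 4 * (ε * A)) (hs : |η - sn| ≤ η ^ 2) :
    0 < ε ^ 2 * (2 * R * R2 - 2 * μ + R ^ 2) + 145 * (ε * A) ^ 3 := by
  set X : ℝ := ε * A with hXd
  have hX0 : 0 < X := by positivity
  have hεX : ε ≤ X := le_mul_of_one_le_right hε.le hA
  have hε2 : ε ^ 2 * A ≤ X ^ 2 := by
    rw [hXd, mul_pow]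
    exact mul_le_mul_of_nonneg_left (le_self_pow₀ hA (by norm_num)) (by positivity)
  set d : ℝ := 1 - P with hd
  have hd0 : 0 < d := by linarith
  have hη2 : η ^ 2 ≤ 16 * X ^ 2 := by
    have := sq_le_sq' (by linarith [abs_nonneg η, neg_abs_le η]) (le_trans (le_abs_self η) hη)
    exact this.trans (le_of_eq (by ring))
  set ur : ℝ := -(ε * qi) + ε ^ 2 * mr with hur
  set ui : ℝ := ε * qr + ε ^ 2 * mi with hui
  have hPd : 2 * d ≤ 1 / P ^ 2 - 1 := by
    have : 1 + 2 * d ≤ 1 / P ^ 2 := by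
      rw [le_div_iff₀ (by positivity), hd]
      have g1 : 1 - (1 + 2 * (1 - P)) * P ^ 2 = (1 - P) ^ 2 * (1 + 2 * P) := by ring
      have g2 : 0 ≤ (1 - P) ^ 2 * (1 + 2 * P) := by positivity
      linarith
    linarith
  have hmr2 : |ε ^ 2 * mr| ≤ X ^ 2 := by
    rw [abs_mul, abs_of_pos (by positivity : 0 < ε ^ 2)]
    exact (mul_le_mul_of_nonneg_left hmrA (by positivity)).trans hε2
  have hmi2 : |ε ^ 2 * mi| ≤ X ^ 2 := by
    rw [abs_mul, abs_of_pos (by positivity : 0 < ε ^ 2)]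
    exact (mul_le_mul_of_nonneg_left hmiA (by positivity)).trans hε2
  have hεqi : |ε * qi| ≤ X := by
    rw [abs_mul, abs_of_pos hε]; exact mul_le_mul_of_nonneg_left hqiA hε.le
  have hεqr : |ε * qr| ≤ X := by
    rw [abs_mul, abs_of_pos hε]; exact mul_le_mul_of_nonneg_left hqrA hε.le
  have hXX : X ^ 2 ≤ X / 8 := by
    have := mul_le_mul_of_nonneg_left hX hX0.le
    calc X ^ 2 = X * X := by ring
      _ ≤ X * (1 / 8) := this
      _ = X / 8 := by ring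
  -- bound of ε |qi| in terms of d
  have hηR2 : |η * R2| ≤ 4 * X * A := by
    rw [abs_mul]; exact mul_le_mul hη hR2 (abs_nonneg _) (by positivity)
  have hqi2 : |qi| ≤ 4 * X * A + A * (d + 16 * X ^ 2) := by
    have e1 : |qi| ≤ |qi - η * R2| + |η * R2| := by
      have := abs_add_le (qi - η * R2) (η * R2)
      simpa using this
    have e2 : A * (d + η ^ 2) ≤ A * (d + 16 * X ^ 2) := by
      apply mul_le_mul_of_nonneg_left _ (by linarith)
      linarith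
    linarith
  have hεqi2 : |ε * qi| ≤ 4 * X ^ 2 + X * d + 16 * X ^ 3 := by
    rw [abs_mul, abs_of_pos hε]
    calc ε * |qi| ≤ ε * (4 * X * A + A * (d + 16 * X ^ 2)) :=
          mul_le_mul_of_nonneg_left hqi2 hε.le
      _ = 4 * X * (ε * A) + (ε * A) * d + 16 * (ε * A) * X ^ 2 := by ring
      _ = _ := by rw [← hXd]; ring
  have hX3 : X ^ 3 ≤ X ^ 2 / 8 := by
    have := mul_le_mul_of_nonneg_left hX (sq_nonneg X)
    calc X ^ 3 = X ^ 2 * X := by ring
      _ ≤ X ^ 2 * (1 / 8) := this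
      _ = X ^ 2 / 8 := by ring
  have hur1 : |ur| ≤ 2 * X := by
    have := abs_add_le (-(ε * qi)) (ε ^ 2 * mr)
    rw [abs_neg] at this
    rw [hur]
    linarith
  have hui1 : |ui| ≤ 2 * X := by
    have := abs_add_le (ε * qr) (ε ^ 2 * mi)
    rw [hui]
    linarith
  have hur2 : ur ^ 2 ≤ 4 * X ^ 2 := by
    have := sq_le_sq' (by linarith [abs_nonneg ur, neg_abs_le ur]) (le_trans (le_abs_self ur) hur1)
    exact this.trans (le_of_eq (by ring))
  have hui2 : ui ^ 2 ≤ 4 * X ^ 2 := by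
    have := sq_le_sq' (by linarith [abs_nonneg ui, neg_abs_le ui]) (le_trans (le_abs_self ui) hui1)
    exact this.trans (le_of_eq (by ring))
  have hexp : 1 / P ^ 2 - 1 = -2 * ur + ur ^ 2 + ui ^ 2 := by
    rw [← h1]; ring
  have hd1 : d ≤ 13 * X ^ 2 := by
    have e1 : -2 * ur ≤ 2 * |ε * qi| + 2 * X ^ 2 := by
      rw [hur]
      have a1 := le_abs_self (ε * qi)
      have a2 := neg_abs_le (ε ^ 2 * mr)
      linarith
    have e2 : X * d ≤ d / 8 := by
      have := mul_le_mul_of_nonneg_right hX hd0.le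
      linarith
    linarith
  have hdη : d + η ^ 2 ≤ 29 * X ^ 2 := by linarith
  have hAdη : A * (d + η ^ 2) ≤ 29 * A * X ^ 2 := by
    have := mul_le_mul_of_nonneg_left hdη (by linarith : 0 ≤ A)
    linarith
  have t1 : ε * |qi - η * R2| ≤ 29 * X ^ 3 := by
    calc ε * |qi - η * R2| ≤ ε * (29 * A * X ^ 2) :=
          mul_le_mul_of_nonneg_left (hqi.trans hAdη) hε.le
      _ = 29 * (ε * A) * X ^ 2 := by ring
      _ = _ := by rw [← hXd]; ring
  have t2 : ε * |qr - R| ≤ 29 * X ^ 3 := by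
    calc ε * |qr - R| ≤ ε * (29 * A * X ^ 2) :=
          mul_le_mul_of_nonneg_left (hqr.trans hAdη) hε.le
      _ = 29 * (ε * A) * X ^ 2 := by ring
      _ = _ := by rw [← hXd]; ring
  have t3 : ε ^ 2 * |mr - μ| ≤ 6 * X ^ 3 := by
    have e1 : A * (d + |η|) ≤ A * (6 * X) := by
      apply mul_le_mul_of_nonneg_left _ (by linarith)
      linarith
    calc ε ^ 2 * |mr - μ| ≤ ε ^ 2 * (A * (6 * X)) :=
          mul_le_mul_of_nonneg_left (hmr.trans e1) (by positivity)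
      _ = 6 * (ε ^ 2 * A) * X := by ring
      _ ≤ 6 * X ^ 2 * X := by
        apply mul_le_mul_of_nonneg_right _ hX0.le
        linarith
      _ = _ := by ring
  -- η close to ε R
  have hηR : |η - ε * R| ≤ 25 * X ^ 2 := by
    have e1 : η - ε * R = (η - sn) + (-(d * ui)) + (ε * (qr - R)) + ε ^ 2 * mi := by
      rw [h2, hd, hui]; ring
    have e2 : |d * ui| ≤ 26 * X ^ 3 := by
      rw [abs_mul, abs_of_pos hd0]
      calc d * |ui| ≤ (13 * X ^ 2) * (2 * X) := mul_le_mul hd1 hui1 (abs_nonneg _) (by positivity)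
        _ = _ := by ring
    have e3 : |ε * (qr - R)| ≤ 29 * X ^ 3 := by
      rw [abs_mul, abs_of_pos hε]; exact t2
    rw [e1]
    have b1 := abs_add_le ((η - sn) + (-(d * ui)) + (ε * (qr - R))) (ε ^ 2 * mi)
    have b2 := abs_add_le ((η - sn) + (-(d * ui))) (ε * (qr - R))
    have b3 := abs_add_le (η - sn) (-(d * ui))
    rw [abs_neg] at b3
    linarith
  have s1 : 2 * (ε * qi) ≤ 2 * ε ^ 2 * R * R2 + 50 * X ^ 3 + 58 * X ^ 3 := by
    have e1 : ε * qi = ε ^ 2 * R * R2 + ε * ((η - ε * R) * R2) + ε * (qi - η * R2) := by ring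
    have e2 : ε * ((η - ε * R) * R2) ≤ 25 * X ^ 3 := by
      have : |(η - ε * R) * R2| ≤ 25 * X ^ 2 * A := by
        rw [abs_mul]; exact mul_le_mul hηR hR2 (abs_nonneg _) (by positivity)
      calc ε * ((η - ε * R) * R2) ≤ ε * (25 * X ^ 2 * A) :=
            mul_le_mul_of_nonneg_left ((le_abs_self _).trans this) hε.le
        _ = 25 * X ^ 2 * (ε * A) := by ring
        _ = _ := by rw [← hXd]; ring
    have e3 : ε * (qi - η * R2) ≤ 29 * X ^ 3 :=
      (mul_le_mul_of_nonneg_left (le_abs_self _) hε.le).trans t1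
    linarith
  have s2 : -(2 * (ε ^ 2 * mr)) ≤ -(2 * (ε ^ 2 * μ)) + 12 * X ^ 3 := by
    have e1 : ε ^ 2 * (μ - mr) ≤ ε ^ 2 * |mr - μ| := by
      apply mul_le_mul_of_nonneg_left _ (by positivity)
      rw [abs_sub_comm]; exact le_abs_self _
    have e2 : ε ^ 2 * (μ - mr) = ε ^ 2 * μ - ε ^ 2 * mr := by ring
    linarith
  have s3 : ur ^ 2 ≤ 11 * X ^ 3 := by
    have e1 : |ur| ≤ 9 * X ^ 2 := by
      have a1 := abs_add_le (-(ε * qi)) (ε ^ 2 * mr)
      rw [abs_neg] at a1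
      have a3 : X * d ≤ 13 * X ^ 3 := by
        have := mul_le_mul_of_nonneg_left hd1 hX0.le
        exact this.trans (le_of_eq (by ring))
      rw [hur]
      linarith
    have e2 : ur ^ 2 ≤ (9 * X ^ 2) ^ 2 :=
      sq_le_sq' (by linarith [neg_abs_le ur]) (le_trans (le_abs_self ur) e1)
    have e3 : (9 * X ^ 2) ^ 2 = 81 * (X * X ^ 3) := by ring
    have e4 : 0 ≤ X ^ 3 := by positivity
    have e5 := mul_le_mul_of_nonneg_right hX e4
    linarith
  have s4 : ui ^ 2 ≤ ε ^ 2 * R ^ 2 + 14 * X ^ 3 := by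
    have e1 : |ui - ε * R| ≤ 5 * X ^ 2 := by
      have a1 : ui - ε * R = ε * (qr - R) + ε ^ 2 * mi := by rw [hui]; ring
      rw [a1]
      have a2 := abs_add_le (ε * (qr - R)) (ε ^ 2 * mi)
      rw [abs_mul ε, abs_of_pos hε] at a2
      linarith
    have e2 : |ε * R| ≤ X := by
      rw [abs_mul, abs_of_pos hε]; exact mul_le_mul_of_nonneg_left hR hε.le
    have e3 : ui ^ 2 = (ε * R) ^ 2 + 2 * ((ε * R) * (ui - ε * R)) + (ui - ε * R) ^ 2 := by ring
    have e4 : (ε * R) * (ui - ε * R) ≤ 5 * X ^ 3 := by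
      have : |(ε * R) * (ui - ε * R)| ≤ X * (5 * X ^ 2) := by
        rw [abs_mul]; exact mul_le_mul e2 e1 (abs_nonneg _) hX0.le
      calc (ε * R) * (ui - ε * R) ≤ X * (5 * X ^ 2) := (le_abs_self _).trans this
        _ = _ := by ring
    have e5 : (ui - ε * R) ^ 2 ≤ 4 * X ^ 3 := by
      have : (ui - ε * R) ^ 2 ≤ (5 * X ^ 2) ^ 2 :=
        sq_le_sq' (by linarith [neg_abs_le (ui - ε * R)]) (le_trans (le_abs_self _) e1)
      have e6 : (5 * X ^ 2) ^ 2 = 25 * (X * X ^ 3) := by ring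
      have e7 : 0 ≤ X ^ 3 := by positivity
      have e8 := mul_le_mul_of_nonneg_right hX e7
      linarith
    have e9 : (ε * R) ^ 2 = ε ^ 2 * R ^ 2 := by ring
    rw [e3]
    linarith
  have hfin : 0 < 1 / P ^ 2 - 1 := by linarith
  rw [hexp, hur] at hfin
  rw [← hur] at hfin
  have h99 : -2 * ur = 2 * (ε * qi) + -(2 * (ε ^ 2 * mr)) := by rw [hur]; ring
  have h98 : ε ^ 2 * (2 * R * R2 - 2 * μ + R ^ 2) =
      2 * ε ^ 2 * R * R2 - 2 * (ε ^ 2 * μ) + ε ^ 2 * R ^ 2 := by ring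
  rw [h98]
  linarith

end Pool.Agent.H33R3.Bom.P0
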