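import Pool.Agent.H33R3.Bom.P1
import Pool.Agent.H33R3.Bom.P0

set_option autoImplicit false

namespace Pool.Agent.H33R3.Bom.P2

open Complex Metric Set Filter Topology Pool.Agent.H33R3.Bom Pool.Agent.H33R3.Bom.P1

noncomputable def WW (C ρ : ℝ) (j : ℕ) : ℝ := (2 * (j : ℝ) + 1) ^ 3 * (|C| * ρ ^ j)

lemma WW_nonneg {C ρ : ℝ} (h0 : 0 < ρ) (j : ℕ) : 0 ≤ WW C ρ j := by unfold WW; positivity

lemma WW_summable {C ρ : ℝ} (h0 : 0 < ρ) (h1 : ρ < 1) : Summable (WW C ρ) := by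
  have s1 : Summable fun j : ℕ => (j : ℝ) ^ 3 * ρ ^ j :=
    summable_pow_mul_geometric_of_norm_lt_one 3 (by rwa [Real.norm_eq_abs, abs_of_pos h0])
  have s2 : Summable fun j : ℕ => ρ ^ j := summable_geometric_of_lt_one h0.le h1
  refine Summable.of_nonneg_of_le (fun j => WW_nonneg h0 j) (fun j => ?_)
    ((s1.add s2).mul_left (27 * |C|))
  have h3 : (2 * (j : ℝ) + 1) ^ 3 ≤ 27 * ((j : ℝ) ^ 3 + 1) := by
    rcases Nat.eq_zero_or_pos j with h | h
    · subst h; norm_num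
    · have hj : (1 : ℝ) ≤ j := by exact_mod_cast h
      have : (2 * (j : ℝ) + 1) ^ 3 ≤ (3 * (j : ℝ)) ^ 3 :=
        pow_le_pow_left₀ (by positivity) (by linarith) 3
      nlinarith
  unfold WW
  calc (2 * (j : ℝ) + 1) ^ 3 * (|C| * ρ ^ j) ≤ 27 * ((j : ℝ) ^ 3 + 1) * (|C| * ρ ^ j) :=
        mul_le_mul_of_nonneg_right h3 (by positivity)
    _ = _ := by ring

lemma tsum_bd {C ρ : ℝ} (h0 : 0 < ρ) (h1 : ρ < 1) {q : ℕ → ℝ} (hq : ∀ j, |q j| ≤ C * ρ ^ j)
    (c : ℕ → ℂ) {B : ℝ} (hB : 0 ≤ B) (hc : ∀ j : ℕ, ‖c j‖ ≤ (2 * (j : ℝ) + 1) ^ 3 * B) :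
    Summable (fun j => (q j : ℂ) * c j) ∧
      ‖∑' j, (q j : ℂ) * c j‖ ≤ (1 + ∑' j, WW C ρ j) * B := by
  have hs := (WW_summable (C := C) h0 h1).mul_right B
  have hb : ∀ j, ‖(q j : ℂ) * c j‖ ≤ WW C ρ j * B := by
    intro j
    rw [norm_mul, Complex.norm_real, Real.norm_eq_abs]
    have e1 : |q j| ≤ |C| * ρ ^ j :=
      (hq j).trans (mul_le_mul_of_nonneg_right (le_abs_self C) (by positivity))
    calc |q j| * ‖c j‖ ≤ (|C| * ρ ^ j) * ((2 * (j : ℝ) + 1) ^ 3 * B) :=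
          mul_le_mul e1 (hc j) (norm_nonneg _) (by positivity)
      _ = _ := by unfold WW; ring
  refine ⟨Summable.of_norm_bounded hs hb, ?_⟩
  have h2 := tsum_of_norm_bounded hs.hasSum hb
  rw [tsum_mul_right] at h2
  refine h2.trans ?_
  nlinarith

lemma exp1 (x : ℝ) : ‖exp (I * x) - 1‖ ≤ 2 * |x| := by
  have hn : ‖(I * (x : ℂ))‖ = |x| := by simp
  rcases le_or_gt |x| 1 with h | h
  · have := Complex.norm_exp_sub_one_le (x := I * x) (by rw [hn]; exact h)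
    rwa [hn] at this
  · have h1 : ‖exp (I * (x : ℂ))‖ = 1 := by rw [mul_comm, norm_exp_ofReal_mul_I]
    calc ‖exp (I * (x : ℂ)) - 1‖ ≤ ‖exp (I * (x : ℂ))‖ + ‖(1 : ℂ)‖ := norm_sub_le _ _
      _ = 2 := by rw [h1, norm_one]; norm_num
      _ ≤ 2 * |x| := by linarith

lemma exp2 (x : ℝ) : ‖exp (I * x) - 1 - I * x‖ ≤ 3 * x ^ 2 := by
  have hn : ‖(I * (x : ℂ))‖ = |x| := by simp
  rcases le_or_gt |x| 1 with h | h
  · have := Complex.norm_exp_sub_one_sub_id_le (x := I * x) (by rw [hn]; exact h)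
    rw [hn, sq_abs] at this
    nlinarith [sq_nonneg x]
  · calc ‖exp (I * (x : ℂ)) - 1 - I * x‖ ≤ ‖exp (I * (x : ℂ)) - 1‖ + ‖I * (x : ℂ)‖ :=
          norm_sub_le _ _
      _ ≤ 2 * |x| + |x| := by rw [hn]; linarith [exp1 x]
      _ ≤ 3 * x ^ 2 := by
        have : |x| ≤ x ^ 2 := by rw [← sq_abs]; nlinarith
        linarith

lemma e1pow (η : ℝ) (j : ℕ) : exp (I * ((η : ℂ) / 2)) ^ (2 * j) = exp (I * ((j * η : ℝ) : ℂ)) := by
  rw [← Complex.exp_nat_mul]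
  congr 1
  push_cast
  ring

theorem taskP : TaskP := by
  intro q m ρ C κ hρ0 hρ1 hκ hq' hm' hyp
  set A : ℝ := 1 + ∑' j, WW C ρ j with hAdef
  have hA : 1 ≤ A := by
    have : 0 ≤ ∑' j, WW C ρ j := tsum_nonneg fun j => WW_nonneg hρ0 j
    linarith
  have hA0 : 0 < A := by linarith
  refine ⟨min (1 / (8 * A)) (κ / (100 * A ^ 3)), by positivity, ?_⟩
  intro ε hε hεlt z hz w hw hzw
  by_contra hne
  have hε1 : ε < 1 / (8 * A) := hεlt.trans_le (min_le_left _ _)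
  have hε2 : ε < κ / (100 * A ^ 3) := hεlt.trans_le (min_le_right _ _)
  have hX : ε * A ≤ 1 / 8 := by
    rw [lt_div_iff₀ (by positivity)] at hε1
    linarith
  have hz1 : ‖z‖ < 1 := by simpa using hz.1
  have hw1 : ‖w‖ < 1 := by simpa using hw.1
  have hz0 : z ≠ 0 := by simpa using hz.2
  have hw0 : w ≠ 0 := by simpa using hw.2
  have hzp : 0 < ‖z‖ := norm_pos_iff.2 hz0
  have hwp : 0 < ‖w‖ := norm_pos_iff.2 hw0
  -- bounds for powers
  have hcub : ∀ j : ℕ, (1 : ℝ) ≤ 2 * (j : ℝ) + 1 := fun j => by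
    linarith [(Nat.cast_nonneg j : (0 : ℝ) ≤ j)]
  have hc1 : ∀ j : ℕ, 2 * (j : ℝ) + 1 ≤ (2 * (j : ℝ) + 1) ^ 3 := fun j => by
    have h := hcub j
    calc 2 * (j : ℝ) + 1 = (2 * (j : ℝ) + 1) ^ 1 := by ring
      _ ≤ _ := pow_le_pow_right₀ h (by norm_num)
  have hc2 : ∀ j : ℕ, (2 * (j : ℝ) + 1) ^ 2 ≤ (2 * (j : ℝ) + 1) ^ 3 := fun j =>
    pow_le_pow_right₀ (hcub j) (by norm_num)
  -- Q and M
  have hEE : ∀ j : ℕ, ‖EE j z w‖ ≤ (2 * (j : ℝ) + 1) ^ 3 * 1 := fun j => by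
    rw [mul_one]; exact (EE_norm j hz1.le hw1.le).trans (hc1 j)
  have hpowz : ∀ v : ℂ, ‖v‖ < 1 → ∀ j : ℕ, ‖v ^ (2 * j + 1)‖ ≤ (2 * (j : ℝ) + 1) ^ 3 * 1 := by
    intro v hv j
    rw [norm_pow, mul_one]
    exact (pow_le_one₀ (norm_nonneg _) hv.le).trans ((hcub j).trans (hc1 j))
  have hdiff : ∀ p : ℕ → ℝ, (∀ j, |p j| ≤ C * ρ ^ j) →
      hq p z - hq p w = (z - w) * ∑' j, (p j : ℂ) * EE j z w := by
    intro p hp
    have s1 := (tsum_bd hρ0 hρ1 hp (fun j => z ^ (2 * j + 1)) zero_le_one (hpowz z hz1)).1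
    have s2 := (tsum_bd hρ0 hρ1 hp (fun j => w ^ (2 * j + 1)) zero_le_one (hpowz w hw1)).1
    unfold hq
    rw [← s1.tsum_sub s2, ← tsum_mul_left]
    refine tsum_congr fun j => ?_
    have := EE_sub j z w
    linear_combination (-(p j : ℂ)) * this
  set Q : ℂ := ∑' j, (q j : ℂ) * EE j z w with hQ
  set M : ℂ := ∑' j, (m j : ℂ) * EE j z w with hM
  have hQn : ‖Q‖ ≤ A := by
    have := (tsum_bd hρ0 hρ1 hq' (fun j => EE j z w) zero_le_one hEE).2
    rwa [mul_one] at this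
  have hMn : ‖M‖ ≤ A := by
    have := (tsum_bd hρ0 hρ1 hm' (fun j => EE j z w) zero_le_one hEE).2
    rwa [mul_one] at this
  set u : ℂ := I * ε * Q + (ε : ℂ) ^ 2 * M with hu
  have hmain : -(z * w) * (1 - u) = 1 := by
    have h1 := hdiff q hq'
    have h2 := hdiff m hm'
    unfold GG at hzw
    have h3 : (z - w) * (-(1 / (z * w)) - 1 + u) = 0 := by
      have e : 1 / z - 1 / w = (z - w) * (-(1 / (z * w))) := by field_simp; ring
      rw [hu]
      linear_combination hzw - e - I * ε * h1 - (ε : ℂ) ^ 2 * h2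
    have h4 : -(1 / (z * w)) - 1 + u = 0 := by
      rcases mul_eq_zero.1 h3 with h | h
      · exact absurd (sub_eq_zero.1 h) hne
      · exact h
    have h5 : 1 - u = -(1 / (z * w)) := by linear_combination -h4
    rw [h5]
    field_simp
  set ζ : ℂ := -(z * w) with hζ
  have hζn : ‖ζ‖ = ‖z‖ * ‖w‖ := by rw [hζ, norm_neg, norm_mul]
  set P : ℝ := ‖z‖ * ‖w‖ with hP
  have hP0 : 0 < P := by positivity
  have hP1 : P < 1 := by
    rw [hP]; exact mul_lt_one_of_nonneg_of_lt_one_left (norm_nonneg z) hz1 hw1.le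
  set η : ℝ := arg ζ with hη
  have hζe : (P : ℂ) * exp (I * η) = ζ := by
    have := Complex.norm_mul_exp_arg_mul_I ζ
    rw [hζn] at this
    rw [mul_comm I]; exact this
  set γ : ℝ := arg z - η / 2 with hγ
  have hzrep : (‖z‖ : ℂ) * (exp (I * ((η : ℂ) / 2)) * exp (I * γ)) = z := by
    have h := Complex.norm_mul_exp_arg_mul_I z
    rw [← Complex.exp_add]
    have e : I * ((η : ℂ) / 2) + I * (γ : ℂ) = (arg z : ℂ) * I := by
      rw [hγ]; push_cast; ring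
    rw [e]; exact h
  have hwrep : (‖w‖ : ℂ) * (exp (I * ((η : ℂ) / 2)) * (-exp (-(I * γ)))) = w := by
    have h1 : z * ((‖w‖ : ℂ) * (exp (I * ((η : ℂ) / 2)) * (-exp (-(I * γ))))) = z * w := by
      have h2 : exp (I * (γ : ℂ)) * exp (-(I * γ)) = 1 := by rw [← Complex.exp_add]; simp
      have h3 : exp (I * ((η : ℂ) / 2)) * exp (I * ((η : ℂ) / 2)) = exp (I * η) := by
        rw [← Complex.exp_add]; congr 1; ring
      have h4 : ((P : ℝ) : ℂ) = (‖z‖ : ℂ) * (‖w‖ : ℂ) := by rw [hP]; push_cast; ring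
      have h5 : z * w = -ζ := by rw [hζ]; ring
      rw [h5, ← hζe, h4]
      nth_rewrite 1 [← hzrep]
      calc (‖z‖ : ℂ) * (exp (I * ((η : ℂ) / 2)) * exp (I * γ)) *
            ((‖w‖ : ℂ) * (exp (I * ((η : ℂ) / 2)) * -exp (-(I * γ)))) =
            -((‖z‖ : ℂ) * (‖w‖ : ℂ) * (exp (I * ((η : ℂ) / 2)) * exp (I * ((η : ℂ) / 2))) *
              (exp (I * (γ : ℂ)) * exp (-(I * γ)))) := by ring
        _ = _ := by rw [h2, h3]; ring
    exact mul_left_cancel₀ hz0 h1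
  have hnear : ∀ j : ℕ, ‖EE j z w - exp (I * ((η : ℂ) / 2)) ^ (2 * j) * Dk j γ‖ ≤
      (2 * (j : ℝ) + 1) ^ 3 * (1 - P) := by
    intro j
    have h := EE_near j hzp hz1.le hwp hw1.le η γ
    rw [hzrep, hwrep] at h
    refine h.trans ?_
    apply mul_le_mul_of_nonneg_right _ (by linarith)
    have h1 := hcub j
    calc (2 * (j : ℝ) + 1) * (2 * j) ≤ (2 * (j : ℝ) + 1) * (2 * (j : ℝ) + 1) :=
          mul_le_mul_of_nonneg_left (by linarith) (by linarith)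
      _ = (2 * (j : ℝ) + 1) ^ 2 := by ring
      _ ≤ _ := hc2 j
  have hD : ∀ j : ℕ, ‖(Dk j γ : ℂ)‖ ≤ 2 * (j : ℝ) + 1 := fun j => by
    rw [Complex.norm_real, Real.norm_eq_abs]; exact Dk_abs j γ
  set R : ℝ := ∑' j, q j * Dk j γ with hR
  set R2 : ℝ := ∑' j : ℕ, q j * ((j : ℝ) * Dk j γ) with hR2
  set μ : ℝ := ∑' j, m j * Dk j γ with hμ
  have hRc : (R : ℂ) = ∑' j, (q j : ℂ) * (Dk j γ : ℂ) := by
    rw [hR, Complex.ofReal_tsum]; push_cast; rfl
  have hR2c : (R2 : ℂ) = ∑' j : ℕ, (q j : ℂ) * ((j : ℂ) * (Dk j γ : ℂ)) := by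
    rw [hR2, Complex.ofReal_tsum]; push_cast; rfl
  have hμc : (μ : ℂ) = ∑' j, (m j : ℂ) * (Dk j γ : ℂ) := by
    rw [hμ, Complex.ofReal_tsum]; push_cast; rfl
  have hDc : ∀ j : ℕ, ‖(Dk j γ : ℂ)‖ ≤ (2 * (j : ℝ) + 1) ^ 3 * 1 := fun j => by
    rw [mul_one]; exact (hD j).trans (hc1 j)
  have hjD : ∀ j : ℕ, ‖(j : ℂ) * (Dk j γ : ℂ)‖ ≤ (2 * (j : ℝ) + 1) ^ 3 * 1 := fun j => by
    rw [mul_one, norm_mul, Complex.norm_natCast]
    have h1 := hD j
    have h2 := hc2 j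
    have h3 := hcub j
    have h4 : (0 : ℝ) ≤ j := Nat.cast_nonneg j
    calc (j : ℝ) * ‖(Dk j γ : ℂ)‖ ≤ (j : ℝ) * (2 * (j : ℝ) + 1) :=
          mul_le_mul_of_nonneg_left h1 h4
      _ ≤ (2 * (j : ℝ) + 1) * (2 * (j : ℝ) + 1) :=
          mul_le_mul_of_nonneg_right (by linarith) (by linarith)
      _ = (2 * (j : ℝ) + 1) ^ 2 := by ring
      _ ≤ _ := h2
  have sR := tsum_bd hρ0 hρ1 hq' (fun j => (Dk j γ : ℂ)) zero_le_one hDc
  have sR2 := tsum_bd hρ0 hρ1 hq' (fun j => (j : ℂ) * (Dk j γ : ℂ)) zero_le_one hjD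
  have sμ := tsum_bd hρ0 hρ1 hm' (fun j => (Dk j γ : ℂ)) zero_le_one hDc
  have hRA : |R| ≤ A := by
    have := sR.2
    rwa [← hRc, mul_one, Complex.norm_real, Real.norm_eq_abs] at this
  have hR2A : |R2| ≤ A := by
    have := sR2.2
    rwa [← hR2c, mul_one, Complex.norm_real, Real.norm_eq_abs] at this
  -- Q close to R + i η R2
  have hQR : ‖Q - (R + I * η * R2)‖ ≤ A * ((1 - P) + η ^ 2) := by
    have b1 := tsum_bd hρ0 hρ1 hq'
      (fun j => EE j z w - exp (I * ((η : ℂ) / 2)) ^ (2 * j) * Dk j γ)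
      (by linarith : (0 : ℝ) ≤ 1 - P) hnear
    have hc : ∀ j : ℕ, ‖(exp (I * ((η : ℂ) / 2)) ^ (2 * j) - 1 - I * ((j * η : ℝ) : ℂ)) *
        (Dk j γ : ℂ)‖ ≤ (2 * (j : ℝ) + 1) ^ 3 * η ^ 2 := by
      intro j
      rw [norm_mul, e1pow]
      have h1 := exp2 (j * η)
      have h2 := hD j
      have h3 : (0 : ℝ) ≤ j := Nat.cast_nonneg j
      calc ‖exp (I * ((j * η : ℝ) : ℂ)) - 1 - I * ((j * η : ℝ) : ℂ)‖ * ‖(Dk j γ : ℂ)‖
          ≤ (3 * (j * η) ^ 2) * (2 * (j : ℝ) + 1) := mul_le_mul h1 h2 (norm_nonneg _) (by positivity)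
        _ = (3 * (j : ℝ) ^ 2 * (2 * (j : ℝ) + 1)) * η ^ 2 := by ring
        _ ≤ _ := by
          apply mul_le_mul_of_nonneg_right _ (by positivity)
          have : (2 * (j : ℝ) + 1) ^ 3 - 3 * (j : ℝ) ^ 2 * (2 * (j : ℝ) + 1) =
              (2 * (j : ℝ) + 1) * ((j : ℝ) ^ 2 + 4 * j + 1) := by ring
          have h5 : 0 ≤ (2 * (j : ℝ) + 1) * ((j : ℝ) ^ 2 + 4 * j + 1) := by positivity
          linarith
    have b2 := tsum_bd hρ0 hρ1 hq'
      (fun j => (exp (I * ((η : ℂ) / 2)) ^ (2 * j) - 1 - I * ((j * η : ℝ) : ℂ)) *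
        (Dk j γ : ℂ)) (by positivity : (0 : ℝ) ≤ η ^ 2) hc
    have sQ := (tsum_bd hρ0 hρ1 hq' (fun j => EE j z w) zero_le_one hEE).1
    have e : Q - (R + I * η * R2) =
        ∑' j, (q j : ℂ) * (EE j z w - exp (I * ((η : ℂ) / 2)) ^ (2 * j) * Dk j γ) +
        ∑' j, (q j : ℂ) * ((exp (I * ((η : ℂ) / 2)) ^ (2 * j) - 1 - I * ((j * η : ℝ) : ℂ)) *
          (Dk j γ : ℂ)) := by
      rw [← b1.1.tsum_add b2.1, hRc, hR2c, hQ, ← tsum_mul_left,
        ← sR.1.tsum_add (sR2.1.mul_left (I * η)), ← sQ.tsum_sub (sR.1.add (sR2.1.mul_left (I * η)))]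
      refine tsum_congr fun j => ?_
      push_cast
      ring
    rw [e]
    refine (norm_add_le _ _).trans ?_
    have := add_le_add b1.2 b2.2
    rw [← hAdef] at this
    linarith
  have hMμ : ‖M - μ‖ ≤ A * ((1 - P) + |η|) := by
    have b1 := tsum_bd hρ0 hρ1 hm'
      (fun j => EE j z w - exp (I * ((η : ℂ) / 2)) ^ (2 * j) * Dk j γ)
      (by linarith : (0 : ℝ) ≤ 1 - P) hnear
    have hc : ∀ j : ℕ, ‖(exp (I * ((η : ℂ) / 2)) ^ (2 * j) - 1) *
        (Dk j γ : ℂ)‖ ≤ (2 * (j : ℝ) + 1) ^ 3 * |η| := by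
      intro j
      rw [norm_mul, e1pow]
      have h1 := exp1 (j * η)
      have h2 := hD j
      have h3 : (0 : ℝ) ≤ j := Nat.cast_nonneg j
      rw [abs_mul, abs_of_nonneg h3] at h1
      calc ‖exp (I * ((j * η : ℝ) : ℂ)) - 1‖ * ‖(Dk j γ : ℂ)‖
          ≤ (2 * (j * |η|)) * (2 * (j : ℝ) + 1) := mul_le_mul h1 h2 (norm_nonneg _) (by positivity)
        _ = (2 * (j : ℝ) * (2 * (j : ℝ) + 1)) * |η| := by ring
        _ ≤ _ := by
          apply mul_le_mul_of_nonneg_right _ (abs_nonneg _)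
          calc 2 * (j : ℝ) * (2 * (j : ℝ) + 1) ≤ (2 * (j : ℝ) + 1) * (2 * (j : ℝ) + 1) :=
                mul_le_mul_of_nonneg_right (by linarith) (by linarith)
            _ = (2 * (j : ℝ) + 1) ^ 2 := by ring
            _ ≤ _ := hc2 j
    have b2 := tsum_bd hρ0 hρ1 hm'
      (fun j => (exp (I * ((η : ℂ) / 2)) ^ (2 * j) - 1) * (Dk j γ : ℂ)) (abs_nonneg η) hc
    have sM := (tsum_bd hρ0 hρ1 hm' (fun j => EE j z w) zero_le_one hEE).1
    have e : M - μ =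
        ∑' j, (m j : ℂ) * (EE j z w - exp (I * ((η : ℂ) / 2)) ^ (2 * j) * Dk j γ) +
        ∑' j, (m j : ℂ) * ((exp (I * ((η : ℂ) / 2)) ^ (2 * j) - 1) * (Dk j γ : ℂ)) := by
      rw [← b1.1.tsum_add b2.1, hμc, hM, ← sM.tsum_sub sμ.1]
      refine tsum_congr fun j => ?_
      ring
    rw [e]
    refine (norm_add_le _ _).trans ?_
    have := add_le_add b1.2 b2.2
    rw [← hAdef] at this
    linarith
  have hqi : |Q.im - η * R2| ≤ A * ((1 - P) + η ^ 2) := by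
    have h := (abs_im_le_norm (Q - (R + I * η * R2))).trans hQR
    have e : (Q - (R + I * η * R2)).im = Q.im - η * R2 := by simp
    rwa [e] at h
  have hqr : |Q.re - R| ≤ A * ((1 - P) + η ^ 2) := by
    have h := (abs_re_le_norm (Q - (R + I * η * R2))).trans hQR
    have e : (Q - (R + I * η * R2)).re = Q.re - R := by simp
    rwa [e] at h
  have hmr : |M.re - μ| ≤ A * ((1 - P) + |η|) := by
    have h := (abs_re_le_norm (M - μ)).trans hMμ
    have e : (M - μ).re = M.re - μ := by simp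
    rwa [e] at h
  have hqrA : |Q.re| ≤ A := (abs_re_le_norm _).trans hQn
  have hqiA : |Q.im| ≤ A := (abs_im_le_norm _).trans hQn
  have hmrA : |M.re| ≤ A := (abs_re_le_norm _).trans hMn
  have hmiA : |M.im| ≤ A := (abs_im_le_norm _).trans hMn
  have hure : u.re = -(ε * Q.im) + ε ^ 2 * M.re := by
    rw [hu]; simp [pow_two]
  have huim : u.im = ε * Q.re + ε ^ 2 * M.im := by
    rw [hu]; simp [pow_two]
  have h1 : (1 - (-(ε * Q.im) + ε ^ 2 * M.re)) ^ 2 + (ε * Q.re + ε ^ 2 * M.im) ^ 2 = 1 / P ^ 2 := by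
    rw [← hure, ← huim]
    have hn : ‖ζ‖ * ‖1 - u‖ = 1 := by rw [← norm_mul, hmain, norm_one]
    rw [hζn] at hn
    have h2 : ‖1 - u‖ ^ 2 = (1 - u.re) ^ 2 + u.im ^ 2 := by
      rw [← Complex.normSq_eq_norm_sq, normSq_apply]; simp; ring
    rw [← h2, eq_div_iff (by positivity), ← mul_pow, mul_comm, hn, one_pow]
  have hcs : P * (Real.cos η * (1 - u.re) + Real.sin η * u.im) = 1 ∧
      P * (Real.sin η * (1 - u.re) - Real.cos η * u.im) = 0 := by
    have h := hmain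
    rw [← hζe, mul_comm I, Complex.exp_mul_I, ← Complex.ofReal_cos, ← Complex.ofReal_sin] at h
    have a1 := congrArg Complex.re h
    have a2 := congrArg Complex.im h
    simp only [mul_re, mul_im, add_re, add_im, ofReal_re, ofReal_im, I_re, I_im, sub_re, sub_im,
      one_re, one_im] at a1 a2
    constructor
    · linear_combination a1
    · linear_combination a2
  have hsq := Real.sin_sq_add_cos_sq η
  have h2 : Real.sin η = P * (ε * Q.re + ε ^ 2 * M.im) := by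
    rw [← huim]
    obtain ⟨c1, c2⟩ := hcs
    have : P * u.im = Real.sin η * (P * (Real.cos η * (1 - u.re) + Real.sin η * u.im)) -
        Real.cos η * (P * (Real.sin η * (1 - u.re) - Real.cos η * u.im)) := by
      linear_combination (-(P * u.im)) * hsq
    rw [c1, c2] at this
    linarith
  have hubd : |u.re| ≤ 1 / 4 + 1 / 64 ∧ |u.im| ≤ 2 * (ε * A) := by
    have hεA2 : ε ^ 2 * A ≤ ε * A := by
      have g1 : ε ≤ ε * A := le_mul_of_one_le_right hε.le hA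
      have g2 : ε * (ε * A) ≤ 1 * (ε * A) :=
        mul_le_mul_of_nonneg_right (by linarith) (by positivity)
      calc ε ^ 2 * A = ε * (ε * A) := by ring
        _ ≤ 1 * (ε * A) := g2
        _ = ε * A := one_mul _
    have t1 : |ε * Q.im| ≤ ε * A := by
      rw [abs_mul, abs_of_pos hε]; exact mul_le_mul_of_nonneg_left hqiA hε.le
    have t2 : |ε * Q.re| ≤ ε * A := by
      rw [abs_mul, abs_of_pos hε]; exact mul_le_mul_of_nonneg_left hqrA hε.le
    have t3 : |ε ^ 2 * M.re| ≤ ε ^ 2 * A := by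
      rw [abs_mul, abs_of_pos (by positivity)]; exact mul_le_mul_of_nonneg_left hmrA (by positivity)
    have t4 : |ε ^ 2 * M.im| ≤ ε ^ 2 * A := by
      rw [abs_mul, abs_of_pos (by positivity)]; exact mul_le_mul_of_nonneg_left hmiA (by positivity)
    constructor
    · rw [hure]
      have := abs_add_le (-(ε * Q.im)) (ε ^ 2 * M.re)
      rw [abs_neg] at this
      linarith
    · rw [huim]
      have := abs_add_le (ε * Q.re) (ε ^ 2 * M.im)
      linarith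
  have hηhalf : |η| ≤ Real.pi / 2 := by
    have hre : 0 < ζ.re := by
      have hinv : ζ = (1 - u)⁻¹ := eq_inv_of_mul_eq_one_left hmain
      have hune : (1 - u) ≠ 0 := by
        intro h0; rw [h0, mul_zero] at hmain; exact zero_ne_one hmain
      rw [hinv, Complex.inv_re]
      apply div_pos
      · have := le_abs_self u.re
        simp
        linarith [hubd.1]
      · exact Complex.normSq_pos.2 hune
    exact (Complex.abs_arg_lt_pi_div_two_iff.2 (Or.inl hre)).le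
  have hη4 : |η| ≤ 4 * (ε * A) := by
    have hj := Real.mul_abs_le_abs_sin hηhalf
    have hs : |Real.sin η| ≤ 2 * (ε * A) := by
      rw [h2, ← huim, abs_mul, abs_of_pos hP0]
      exact (mul_le_of_le_one_left (abs_nonneg _) hP1.le).trans hubd.2
    have hpi := Real.pi_le_four
    have hpi0 := Real.pi_pos
    have : 2 / Real.pi * |η| ≤ 2 * (ε * A) := hj.trans hs
    rw [div_mul_eq_mul_div, div_le_iff₀ hpi0] at this
    have h8 : 0 ≤ 2 * (ε * A) := by positivity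
    have h88 := mul_le_mul_of_nonneg_left hpi h8
    linarith
  have hs : |η - Real.sin η| ≤ η ^ 2 := by
    have hη12 : |η| ≤ 1 / 2 := by linarith
    have hb := Real.sin_bound (x := η) (by linarith)
    have e1 : η - Real.sin η = -(Real.sin η - (η - η ^ 3 / 6)) + η ^ 3 / 6 := by ring
    have e2 : |η ^ 3 / 6| = |η| ^ 3 / 6 := by
      rw [abs_div, abs_pow, abs_of_pos (by norm_num : (0 : ℝ) < 6)]
    have e3 : |η| ^ 3 ≤ |η| ^ 2 / 2 := by
      have g := mul_le_mul_of_nonneg_left hη12 (sq_nonneg |η|)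
      calc |η| ^ 3 = |η| ^ 2 * |η| := by ring
        _ ≤ |η| ^ 2 * (1 / 2) := g
        _ = |η| ^ 2 / 2 := by ring
    have e4 : |η| ^ 4 ≤ |η| ^ 2 / 4 := by
      have h5 : 0 ≤ |η| ^ 3 := by positivity
      have g := mul_le_mul_of_nonneg_left hη12 h5
      calc |η| ^ 4 = |η| ^ 3 * |η| := by ring
        _ ≤ |η| ^ 3 * (1 / 2) := g
        _ ≤ |η| ^ 2 / 4 := by linarith
    rw [e1]
    have := abs_add_le (-(Real.sin η - (η - η ^ 3 / 6))) (η ^ 3 / 6)
    rw [abs_neg, e2] at this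
    have h6 : |η| ^ 2 = η ^ 2 := sq_abs η
    have h7 := sq_nonneg η
    nlinarith [sq_nonneg η]
  have hfin := Pool.Agent.H33R3.Bom.P0.num hε hA hX hP0 hP1 hRA hR2A hqi hqr hmr hqrA hqiA hmrA
    hmiA h1 h2 hη4 hs
  have hh := hyp γ
  have hR1 : ∑' j : ℕ, (2 * (j : ℝ) + 1) * q j * Dk j γ = 2 * R2 + R := by
    have r1 : Summable fun j : ℕ => q j * ((j : ℝ) * Dk j γ) := by
      have := sR2.1
      rw [← Complex.summable_ofReal]
      refine this.congr fun j => ?_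
      push_cast; rfl
    have r2 : Summable fun j : ℕ => q j * Dk j γ := by
      have := sR.1
      rw [← Complex.summable_ofReal]
      refine this.congr fun j => ?_
      push_cast; rfl
    rw [hR2, hR, ← tsum_mul_left, ← (r1.mul_left 2).tsum_add r2]
    refine tsum_congr fun j => ?_
    ring
  rw [hR1, ← hR, ← hμ] at hh
  have hε3 : 100 * (ε * A ^ 3) < κ := by
    rw [lt_div_iff₀ (by positivity)] at hε2
    linarith
  have h9 : ε ^ 2 * (2 * R * R2 - 2 * μ + R ^ 2) ≤ ε ^ 2 * (-(2 * κ)) := by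
    apply mul_le_mul_of_nonneg_left _ (by positivity)
    have g : R * (2 * R2 + R) = 2 * R * R2 + R ^ 2 := by ring
    linarith
  have h10 : 145 * (ε * A) ^ 3 = ε ^ 2 * (145 * (ε * A ^ 3)) := by ring
  have h11 : ε ^ 2 * (145 * (ε * A ^ 3)) < ε ^ 2 * (2 * κ) := by
    apply mul_lt_mul_of_pos_left _ (by positivity)
    have : 0 < ε * A ^ 3 := by positivity
    linarith
  linarith

end Pool.Agent.H33R3.Bom.P2
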