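import Pool.Agent.H33R3.Bom.Stmts3
import Pool.Agent.H33R3.Bom.LB
import Pool.Agent.H33R3.Bom.P2
import Pool.Agent.H299R5.Bom3.TaskR
import Pool.Agent.H527R3.Bom3.TaskS
import Pool.Agent.Helper323.Bom3.TaskV
import Pool.Agent.H779R5.Bom3.TaskE3

set_option autoImplicit false

/-! The lower bound of order `n^3 log n`. -/

namespace Pool.Agent.H33R3.Bom

theorem lowerLog : LowerLog :=
  assemble3 (fun n _ c hc => LB.lower1 n c hc) P2.taskP Pool.Agent.H299R5.Bom3.taskR
    V323.taskV taskE3 Pool.Agent.H527R3.Bom3.taskS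

end Pool.Agent.H33R3.Bom
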