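import Pool.Agent.H33R3.Bom.Stmts3

set_option autoImplicit false

namespace Pool.Agent.H33R3.Bom.P1

open Complex Metric Set Filter Topology Pool.Agent.H33R3.Bom

noncomputable def EE (j : ℕ) (z w : ℂ) : ℂ :=
  ∑ i ∈ Finset.range (2 * j + 1), z ^ i * w ^ (2 * j - i)

lemma EE_sub (j : ℕ) (z w : ℂ) : (z - w) * EE j z w = z ^ (2 * j + 1) - w ^ (2 * j + 1) := by
  have h := (Commute.all z w).geom_sum₂_mul (2 * j + 1)
  rw [EE, mul_comm]
  simpa using h

lemma EE_norm (j : ℕ) {z w : ℂ} (hz : ‖z‖ ≤ 1) (hw : ‖w‖ ≤ 1) : ‖EE j z w‖ ≤ 2 * j + 1 := by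
  refine (norm_sum_le _ _).trans ?_
  refine (Finset.sum_le_sum (g := fun _ => (1 : ℝ)) fun i _ => ?_).trans (by simp)
  rw [norm_mul, norm_pow, norm_pow]
  exact mul_le_one₀ (pow_le_one₀ (norm_nonneg _) hz) (by positivity) (pow_le_one₀ (norm_nonneg _) hw)

lemma Dk_eq (j : ℕ) (γ : ℝ) : (Dk j γ : ℂ) = EE j (exp (I * γ)) (-exp (-(I * γ))) := by
  have hreal : (starRingEnd ℂ) (EE j (exp (I * γ)) (-exp (-(I * γ)))) =
      EE j (exp (I * γ)) (-exp (-(I * γ))) := by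
    have c1 : (starRingEnd ℂ) (exp (I * γ)) = exp (-(I * γ)) := by
      rw [← exp_conj]; simp
    have c2 : (starRingEnd ℂ) (exp (-(I * γ))) = exp (I * γ) := by
      rw [← exp_conj]; simp
    unfold EE
    rw [map_sum, ← Finset.sum_range_reflect]
    refine Finset.sum_congr rfl fun i hi => ?_
    have hi' : i ≤ 2 * j := by
      have := Finset.mem_range.1 hi; omega
    simp only [map_mul, map_pow, map_neg, c1, c2]
    have e1 : 2 * j + 1 - 1 - i = 2 * j - i := by omega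
    have e2 : 2 * j - (2 * j - i) = i := by omega
    rw [e1, e2]
    have hpar : (-1 : ℂ) ^ i = (-1) ^ (2 * j - i) := by
      have h2 : (-1 : ℂ) ^ (2 * j - i) * (-1) ^ i = 1 := by
        rw [← pow_add, show 2 * j - i + i = 2 * j by omega, pow_mul]; simp
      have h3 : (-1 : ℂ) ^ i * (-1) ^ i = 1 := by
        rw [← pow_add, ← two_mul, pow_mul]; simp
      calc (-1 : ℂ) ^ i = ((-1) ^ (2 * j - i) * (-1) ^ i) * (-1) ^ i := by rw [h2, one_mul]
        _ = (-1) ^ (2 * j - i) * ((-1) ^ i * (-1) ^ i) := by ring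
        _ = _ := by rw [h3, mul_one]
    rw [neg_pow (exp (I * γ)) i, neg_pow (exp (-(I * γ))) (2 * j - i), hpar]
    ring
  have h := conj_eq_iff_real.1 hreal
  obtain ⟨r, hr⟩ := h
  unfold Dk
  change (((EE j (exp (I * γ)) (-exp (-(I * γ)))).re : ℝ) : ℂ) = _
  rw [hr]
  simp

lemma Dk_abs (j : ℕ) (γ : ℝ) : |Dk j γ| ≤ 2 * j + 1 := by
  have h1 : ‖(Dk j γ : ℂ)‖ ≤ 2 * j + 1 := by
    rw [Dk_eq]
    apply EE_norm
    · rw [mul_comm, norm_exp_ofReal_mul_I]
    · rw [norm_neg, show -(I * (γ : ℂ)) = ((-γ : ℝ) : ℂ) * I by push_cast; ring,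
        norm_exp_ofReal_mul_I]
  rwa [Complex.norm_real, Real.norm_eq_abs] at h1

/-- comparison with the unimodular point -/
lemma EE_near (j : ℕ) {r s : ℝ} (hr0 : 0 < r) (hr1 : r ≤ 1) (hs0 : 0 < s) (hs1 : s ≤ 1)
    (η γ : ℝ) :
    ‖EE j (r * (exp (I * (η / 2)) * exp (I * γ))) (s * (exp (I * (η / 2)) * (-exp (-(I * γ))))) -
      exp (I * (η / 2)) ^ (2 * j) * Dk j γ‖ ≤ (2 * (j : ℝ) + 1) * (2 * j) * (1 - r * s) := by
  rw [Dk_eq]
  unfold EE
  rw [Finset.mul_sum, ← Finset.sum_sub_distrib]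
  refine (norm_sum_le _ _).trans ?_
  have hP0 : 0 < r * s := by positivity
  have hP1 : r * s ≤ 1 := mul_le_one₀ hr1 hs0.le hs1
  have hterm : ∀ i ∈ Finset.range (2 * j + 1),
      ‖(↑r * (exp (I * (η / 2)) * exp (I * γ))) ^ i *
        (↑s * (exp (I * (η / 2)) * (-exp (-(I * γ))))) ^ (2 * j - i) -
        exp (I * (η / 2)) ^ (2 * j) * (exp (I * γ) ^ i * (-exp (-(I * γ))) ^ (2 * j - i))‖ ≤
        2 * j * (1 - r * s) := by
    intro i hi
    have hi' : i ≤ 2 * j := by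
      have := Finset.mem_range.1 hi; omega
    have e1 : (↑r * (exp (I * (η / 2)) * exp (I * γ))) ^ i *
        (↑s * (exp (I * (η / 2)) * (-exp (-(I * γ))))) ^ (2 * j - i) -
        exp (I * (η / 2)) ^ (2 * j) * (exp (I * γ) ^ i * (-exp (-(I * γ))) ^ (2 * j - i)) =
        ((r ^ i * s ^ (2 * j - i) - 1 : ℝ) : ℂ) *
          (exp (I * (η / 2)) ^ (2 * j) * (exp (I * γ) ^ i * (-exp (-(I * γ))) ^ (2 * j - i))) := by
      have h1 : exp (I * (η / 2)) ^ (2 * j) =
          exp (I * (η / 2)) ^ i * exp (I * (η / 2)) ^ (2 * j - i) := by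
        rw [← pow_add]; congr 1; omega
      rw [h1]
      push_cast
      simp only [mul_pow]
      ring
    rw [e1, norm_mul]
    have n1 : ‖exp (I * ((η : ℂ) / 2))‖ = 1 := by
      rw [show I * ((η : ℂ) / 2) = ((η / 2 : ℝ) : ℂ) * I by push_cast; ring, norm_exp_ofReal_mul_I]
    have n2 : ‖exp (I * (γ : ℂ))‖ = 1 := by rw [mul_comm, norm_exp_ofReal_mul_I]
    have n3 : ‖-exp (-(I * (γ : ℂ)))‖ = 1 := by
      rw [norm_neg, show -(I * (γ : ℂ)) = ((-γ : ℝ) : ℂ) * I by push_cast; ring,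
        norm_exp_ofReal_mul_I]
    have n4 : ‖exp (I * ((η : ℂ) / 2)) ^ (2 * j) *
        (exp (I * γ) ^ i * (-exp (-(I * γ))) ^ (2 * j - i))‖ = 1 := by
      rw [norm_mul, norm_mul, norm_pow, norm_pow, norm_pow, n1, n2, n3]; simp
    rw [n4, mul_one, Complex.norm_real, Real.norm_eq_abs]
    have u1 : r ^ i * s ^ (2 * j - i) ≤ 1 :=
      mul_le_one₀ (pow_le_one₀ hr0.le hr1) (by positivity) (pow_le_one₀ hs0.le hs1)
    have u2 : (r * s) ^ (2 * j) ≤ r ^ i * s ^ (2 * j - i) := by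
      have a1 : (r * s) ^ i ≤ r ^ i :=
        pow_le_pow_left₀ hP0.le (mul_le_of_le_one_right hr0.le hs1) i
      have a2 : (r * s) ^ (2 * j - i) ≤ s ^ (2 * j - i) :=
        pow_le_pow_left₀ hP0.le (mul_le_of_le_one_left hs0.le hr1) _
      calc (r * s) ^ (2 * j) = (r * s) ^ i * (r * s) ^ (2 * j - i) := by
            rw [← pow_add]; congr 1; omega
        _ ≤ _ := mul_le_mul a1 a2 (by positivity) (by positivity)
    have u3 : 1 - 2 * j * (1 - r * s) ≤ (r * s) ^ (2 * j) := by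
      have := one_add_mul_le_pow (a := r * s - 1) (by linarith) (2 * j)
      have e : 1 + (r * s - 1) = r * s := by ring
      rw [e] at this
      push_cast at this
      linarith
    rw [abs_of_nonpos (by linarith)]
    linarith
  refine (Finset.sum_le_sum hterm).trans ?_
  rw [Finset.sum_const, Finset.card_range, nsmul_eq_mul]
  push_cast
  linarith

end Pool.Agent.H33R3.Bom.P1
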