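import Pool.Agent.H33R3.Bom.Stmts

set_option autoImplicit false

/-! # Third part of project H33-BOM: the lower bound of order `n^3 log n`

`G z = 1/z - z + i ε q z + ε^2 m z` is univalent for small `ε`, with `q z = log ((1+ρz)/(1-ρz))`. -/

namespace Pool.Agent.H33R3.Bom

open Complex Metric Set Filter Topology

/-- odd power series, `q j` is the coefficient of `z ^ (2 j + 1)` -/
noncomputable def hq (q : ℕ → ℝ) (z : ℂ) : ℂ := ∑' j : ℕ, (q j : ℂ) * z ^ (2 * j + 1)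

/-- the perturbed Koebe function in the square root coordinate -/
noncomputable def GG (q m : ℕ → ℝ) (ε : ℝ) (z : ℂ) : ℂ :=
  1 / z - z + I * ε * hq q z + (ε : ℂ) ^ 2 * hq m z

/-- the perturbed Koebe function -/
noncomputable def ff (q m : ℕ → ℝ) (ε : ℝ) (w : ℂ) : ℂ :=
  w / (1 - w + w * ∑' j : ℕ, (I * ε * q j + (ε : ℂ) ^ 2 * m j) * w ^ j) ^ 2

/-- `cos ((2 j + 1) γ) / cos γ`, as a polynomial -/
noncomputable def Dk (j : ℕ) (γ : ℝ) : ℝ :=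
  (∑ i ∈ Finset.range (2 * j + 1), exp (I * γ) ^ i * (-exp (-(I * γ))) ^ (2 * j - i)).re

/-- TASK P: univalence for small `ε` -/
def TaskP : Prop :=
  ∀ (q m : ℕ → ℝ) (ρ C κ : ℝ), 0 < ρ → ρ < 1 → 0 < κ → (∀ j, |q j| ≤ C * ρ ^ j) →
    (∀ j, |m j| ≤ C * ρ ^ j) →
    (∀ γ : ℝ, (∑' j : ℕ, q j * Dk j γ) * (∑' j : ℕ, (2 * (j : ℝ) + 1) * q j * Dk j γ) / 2 + κ ≤
      ∑' j : ℕ, m j * Dk j γ) →
    ∃ ε₀ : ℝ, 0 < ε₀ ∧ ∀ ε : ℝ, 0 < ε → ε < ε₀ → InjOn (GG q m ε) (ball 0 1 \ {0})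

/-- coefficients of `log ((1 + ρ z) / (1 - ρ z))` -/
noncomputable def qs (ρ : ℝ) (j : ℕ) : ℝ := 2 * ρ ^ (2 * j + 1) / (2 * (j : ℝ) + 1)

/-- coefficients of the second order term -/
noncomputable def ms (ρ : ℝ) (j : ℕ) : ℝ :=
  Real.log ((1 + ρ) / (1 - ρ)) * ρ ^ (2 * j + 1) + (if j = 0 then 1 else 0)

/-- TASK R: the special sequences satisfy the hypothesis of TASK P -/
def TaskR : Prop :=
  ∀ ρ : ℝ, 0 < ρ → ρ < 1 → ∀ γ : ℝ,
    (∑' j : ℕ, qs ρ j * Dk j γ) * (∑' j : ℕ, (2 * (j : ℝ) + 1) * qs ρ j * Dk j γ) / 2 + 1 ≤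
      ∑' j : ℕ, ms ρ j * Dk j γ

/-- TASK V: the function belongs to `S` -/
def TaskV : Prop :=
  ∀ (q m : ℕ → ℝ) (ρ C ε : ℝ), 0 < ρ → ρ < 1 → (∀ j, |q j| ≤ C * ρ ^ j) →
    (∀ j, |m j| ≤ C * ρ ^ j) → InjOn (GG q m ε) (ball 0 1 \ {0}) → InS (ff q m ε)

/-- TASK E3: second order expansion of the coefficients -/
def TaskE3 : Prop :=
  ∀ (q m : ℕ → ℝ) (ρ C : ℝ), 0 < ρ → ρ < 1 → (∀ j, |q j| ≤ C * ρ ^ j) →
    (∀ j, |m j| ≤ C * ρ ^ j) → (∀ j, 0 ≤ q j) → (∀ j, 0 ≤ m j) →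
    ∀ n J : ℕ, 2 * J + 3 ≤ n → ∃ ε₁ K : ℝ, 0 < ε₁ ∧ ∀ ε : ℝ, 0 < ε → ε < ε₁ →
      ((2 : ℂ) - coeff 2 (ff q m ε)).re = 2 * ε ^ 2 * m 0 ∧
      3 * ε ^ 2 * (∑ i ∈ Finset.range (J + 1), q i) ^ 2 * ((n - 2 * J).choose 3 : ℝ) - K * ε ^ 3 ≤
        ((n : ℂ) - coeff n (ff q m ε)).re

/-- TASK S: numbers -/
def TaskS : Prop :=
  ∀ n : ℕ, 100 ≤ n → (n : ℝ) ^ 3 * Real.log n / 10 ^ 4 * (2 * ms (1 - 1 / n) 0) ≤
    3 * (∑ i ∈ Finset.range (n / 4 + 1), qs (1 - 1 / n) i) ^ 2 * ((n - 2 * (n / 4)).choose 3 : ℝ)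

/-- The lower bound -/
def LowerLog : Prop :=
  ∀ n : ℕ, 2 ≤ n → ∀ c : ℝ,
    (∀ f, InS f → |((n : ℂ) - coeff n f).re| ≤ c * ((2 : ℂ) - coeff 2 f).re) →
      (n : ℝ) ^ 3 * Real.log n / 10 ^ 4 ≤ c

theorem assemble3 (hlow : ∀ n : ℕ, 2 ≤ n → ∀ c : ℝ,
    (∀ f, InS f → |((n : ℂ) - coeff n f).re| ≤ c * ((2 : ℂ) - coeff 2 f).re) →
      ((n : ℝ) ^ 3 - n) / 6 ≤ c)
    (hP : TaskP) (hR : TaskR) (hV : TaskV) (hE : TaskE3) (hS : TaskS) : LowerLog := by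
  intro n hn c hc
  rcases Nat.lt_or_ge n 100 with h100 | h100
  · have h1 := hlow n hn c hc
    have hn2 : (2 : ℝ) ≤ n := by exact_mod_cast hn
    have hn100 : (n : ℝ) < 100 := by exact_mod_cast h100
    have hlog : Real.log n ≤ 100 := by
      have := Real.log_le_sub_one_of_pos (show (0 : ℝ) < n by linarith)
      linarith
    have hlog0 : 0 ≤ Real.log n := Real.log_nonneg (by linarith)
    have h3 : (0 : ℝ) ≤ (n : ℝ) ^ 3 := by positivity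
    have h4 : (n : ℝ) ^ 3 * Real.log n ≤ (n : ℝ) ^ 3 * 100 := by gcongr
    have h7 : 4 * (n : ℝ) ≤ (n : ℝ) ^ 3 := by
      have h8 : (0 : ℝ) ≤ (n : ℝ) * ((n : ℝ) ^ 2 - 4) := by
        apply mul_nonneg (by linarith)
        nlinarith
      nlinarith
    have h5 : (n : ℝ) ^ 3 * 100 / 10 ^ 4 ≤ ((n : ℝ) ^ 3 - n) / 6 := by
      norm_num
      linarith
    have h6 : (n : ℝ) ^ 3 * Real.log n / 10 ^ 4 ≤ (n : ℝ) ^ 3 * 100 / 10 ^ 4 := by gcongr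
    linarith
  · have hn1 : (100 : ℝ) ≤ n := by exact_mod_cast h100
    set ρ : ℝ := 1 - 1 / n with hρ
    have hinv : 1 / (n : ℝ) ≤ 1 / 100 := one_div_le_one_div_of_le (by norm_num) hn1
    have hinv0 : 0 < 1 / (n : ℝ) := by positivity
    have hρ0 : 0 < ρ := by rw [hρ]; linarith
    have hρ1 : ρ < 1 := by rw [hρ]; linarith
    set Λ : ℝ := Real.log ((1 + ρ) / (1 - ρ)) with hΛ
    have hΛ0 : 0 ≤ Λ := by
      apply Real.log_nonneg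
      rw [le_div_iff₀ (by linarith)]
      linarith
    have hq0 : ∀ j, 0 ≤ qs ρ j := fun j => by unfold qs; positivity
    have hm0 : ∀ j, 0 ≤ ms ρ j := fun j => by
      unfold ms
      rw [← hΛ]
      have : (0 : ℝ) ≤ if j = 0 then 1 else 0 := by split_ifs <;> norm_num
      positivity
    have hpow : ∀ j : ℕ, ρ ^ (2 * j + 1) ≤ ρ ^ j := fun j =>
      pow_le_pow_of_le_one hρ0.le hρ1.le (by omega)
    have hqb : ∀ j, |qs ρ j| ≤ (Λ + 2) * ρ ^ j := fun j => by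
      rw [abs_of_nonneg (hq0 j)]
      unfold qs
      have h1 : 2 * ρ ^ (2 * j + 1) / (2 * (j : ℝ) + 1) ≤ 2 * ρ ^ (2 * j + 1) :=
        div_le_self (by positivity) (by linarith [(Nat.cast_nonneg j : (0 : ℝ) ≤ j)])
      have h2 := hpow j
      have h3 : 0 ≤ ρ ^ j := by positivity
      nlinarith
    have hmb : ∀ j, |ms ρ j| ≤ (Λ + 2) * ρ ^ j := fun j => by
      rw [abs_of_nonneg (hm0 j)]
      unfold ms
      rw [← hΛ]
      have h2 := hpow j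
      have h3 : 0 ≤ ρ ^ j := by positivity
      have h4 : (if j = 0 then (1 : ℝ) else 0) ≤ ρ ^ j := by
        split_ifs with h
        · subst h; simp
        · positivity
      nlinarith
    obtain ⟨ε₀, hε₀, hinj⟩ := hP (qs ρ) (ms ρ) ρ (Λ + 2) 1 hρ0 hρ1 one_pos hqb hmb
      (hR ρ hρ0 hρ1)
    obtain ⟨ε₁, K, hε₁, hexp⟩ := hE (qs ρ) (ms ρ) ρ (Λ + 2) hρ0 hρ1 hqb hmb hq0 hm0 n (n / 4)
      (by omega)
    have hS' := hS n h100
    rw [← hρ] at hS'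
    set B : ℝ := 3 * (∑ i ∈ Finset.range (n / 4 + 1), qs ρ i) ^ 2 *
      ((n - 2 * (n / 4)).choose 3 : ℝ) with hB
    have key : ∀ ε : ℝ, 0 < ε → ε < min ε₀ ε₁ → B - K * ε ≤ c * (2 * ms ρ 0) := by
      intro ε h0 h1
      obtain ⟨he1, he2⟩ := hexp ε h0 (h1.trans_le (min_le_right _ _))
      have hfS := hV (qs ρ) (ms ρ) ρ (Λ + 2) ε hρ0 hρ1 hqb hmb
        (hinj ε h0 (h1.trans_le (min_le_left _ _)))
      have h2 := hc _ hfS
      rw [he1] at h2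
      have h3 := (le_abs_self _).trans h2
      have h4 := he2.trans h3
      have h5 : ε ^ 2 * (B - K * ε) ≤ ε ^ 2 * (c * (2 * ms ρ 0)) := by
        rw [hB]
        nlinarith
      exact le_of_mul_le_mul_left h5 (by positivity)
    have hlim : B ≤ c * (2 * ms ρ 0) := by
      have ht : Tendsto (fun ε : ℝ => B - K * ε) (𝓝[>] 0) (𝓝 (B - K * 0)) := by
        apply Tendsto.mono_left _ nhdsWithin_le_nhds
        exact (continuous_const.sub (continuous_const.mul continuous_id)).tendsto 0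
      rw [mul_zero, sub_zero] at ht
      refine le_of_tendsto ht ?_
      have : Set.Ioo (0 : ℝ) (min ε₀ ε₁) ∈ 𝓝[>] (0 : ℝ) := Ioo_mem_nhdsGT (lt_min hε₀ hε₁)
      filter_upwards [this] with ε hε using key ε hε.1 hε.2
    have hmpos : 0 < 2 * ms ρ 0 := by
      unfold ms
      rw [← hΛ]
      simp only [if_true]
      positivity
    exact le_of_mul_le_mul_right (hS'.trans hlim) hmpos

end Pool.Agent.H33R3.Bom
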